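import Mathlib

/-!
# Virtual retracts onto cyclic subgroups: elementary criteria
-/

set_option autoImplicit false

namespace Pool.Agent.Y968.VR

universe u v

variable {G : Type u} [Group G]

/-- `H` is a virtual retract of `G`. -/
def IsVR (H : Subgroup G) : Prop :=
  ∃ K : Subgroup G, K.FiniteIndex ∧ ∃ hHK : H ≤ K, ∃ ρ : K →* H,
    ∀ h : H, ρ (Subgroup.inclusion hHK h) = h

/-- property (VRC) -/
def VRC (G : Type u) [Group G] : Prop := ∀ g : G, IsVR (Subgroup.zpowers g)

/-- A relation which behaves like a retraction onto `⟨h⟩`. -/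
theorem isVR_of_rel (h : G) (K : Subgroup G) [hK : K.FiniteIndex] (Rel : G → ℤ → Prop)
    (hex : ∀ g ∈ K, ∃ n, Rel g n) (hh : Rel h 1)
    (hmul : ∀ g g' n n', Rel g n → Rel g' n' → Rel (g * g') (n + n'))
    (hinv : ∀ g n, Rel g n → Rel g⁻¹ (-n))
    (huniq : ∀ n, Rel 1 n → h ^ n = 1) : IsVR (Subgroup.zpowers h) := by
  classical
  -- the subgroup of all elements with a value
  have h1 : Rel 1 0 := by
    have := hmul _ _ _ _ hh (hinv _ _ hh)
    simpa using this
  let M : Subgroup G :=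
    { carrier := {g | ∃ n, Rel g n}
      mul_mem' := fun {a b} ha hb => by
        obtain ⟨n, hn⟩ := ha
        obtain ⟨m, hm⟩ := hb
        exact ⟨n + m, hmul _ _ _ _ hn hm⟩
      one_mem' := ⟨0, h1⟩
      inv_mem' := fun {a} ha => by
        obtain ⟨n, hn⟩ := ha
        exact ⟨-n, hinv _ _ hn⟩ }
  have hKM : K ≤ M := fun g hg => hex g hg
  have hM : M.FiniteIndex := Subgroup.finiteIndex_of_le hKM
  have hhM : h ∈ M := ⟨1, hh⟩
  have hzM : Subgroup.zpowers h ≤ M := by
    rw [Subgroup.zpowers_le]; exact hhM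
  have hpow : ∀ n : ℕ, Rel (h ^ n) n := by
    intro n
    induction n with
    | zero => simpa using h1
    | succ n ih =>
      rw [pow_succ]
      have := hmul _ _ _ _ ih hh
      simpa using this
  have hzpow : ∀ n : ℤ, Rel (h ^ n) n := by
    intro n
    obtain ⟨n, rfl | rfl⟩ := n.eq_nat_or_neg
    · simpa using hpow n
    · simpa using hinv _ _ (hpow n)
  have hval : ∀ g n n', Rel g n → Rel g n' → h ^ n = h ^ n' := by
    intro g n n' hn hn'
    have := hmul _ _ _ _ hn (hinv _ _ hn')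
    rw [mul_inv_cancel] at this
    have h2 := huniq _ this
    rw [zpow_add, zpow_neg, mul_inv_eq_one] at h2
    exact h2
  let f : M → ℤ := fun g => Classical.choose g.2
  have hf : ∀ g : M, Rel g (f g) := fun g => Classical.choose_spec g.2
  refine ⟨M, hM, hzM, ⟨⟨fun g => ⟨h ^ (f g), ⟨_, rfl⟩⟩, ?_⟩, ?_⟩, ?_⟩
  · apply Subtype.ext
    have := hval 1 _ 0 (hf 1) h1
    simpa using this
  · intro a b
    apply Subtype.ext
    have := hval _ _ _ (hf (a * b)) (hmul _ _ _ _ (hf a) (hf b))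
    simpa [zpow_add] using this
  · rintro ⟨x, ⟨n, rfl⟩⟩
    apply Subtype.ext
    have := hval _ _ _ (hf (Subgroup.inclusion hzM ⟨h ^ n, ⟨n, rfl⟩⟩)) (hzpow n)
    simpa using this

/-- **Lemma B.** A homomorphism to `ℤ` from a subgroup of finite index which does not vanish on a
power of `h` gives a virtual retraction onto `⟨h⟩`. -/
theorem isVR_of_hom (h : G) (K : Subgroup G) [hK : K.FiniteIndex]
    (φ : K →* Multiplicative ℤ) (m : ℕ) (hm : h ^ m ∈ K) (hφ : φ ⟨h ^ m, hm⟩ ≠ 1) :
    IsVR (Subgroup.zpowers h) := by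
  classical
  -- the normal core
  set L := K.normalCore with hL
  have hLK : L ≤ K := Subgroup.normalCore_le K
  have : L.FiniteIndex := Subgroup.finiteIndex_normalCore K
  have : L.Normal := Subgroup.normalCore_normal K
  -- the additive function
  let a : G → ℤ := fun g => if hg : g ∈ K then Multiplicative.toAdd (φ ⟨g, hg⟩) else 0
  have ha : ∀ g (hg : g ∈ K), a g = Multiplicative.toAdd (φ ⟨g, hg⟩) := fun g hg => by
    simp only [a, dif_pos hg]
  have hamul : ∀ g g', g ∈ K → g' ∈ K → a (g * g') = a g + a g' := by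
    intro g g' hg hg'
    rw [ha _ (K.mul_mem hg hg'), ha _ hg, ha _ hg', ← toAdd_mul, ← map_mul]
    rfl
  have ha1 : a 1 = 0 := by
    have := hamul 1 1 K.one_mem K.one_mem
    simp only [mul_one] at this
    omega
  have hainv : ∀ g, g ∈ K → a g⁻¹ = - a g := by
    intro g hg
    have := hamul g g⁻¹ hg (K.inv_mem hg)
    rw [mul_inv_cancel, ha1] at this
    omega
  -- exponent `M` with `h ^ M ∈ L`
  obtain ⟨N, hN0, -, hN⟩ :=
    Subgroup.exists_pow_mem_of_index_ne_zero (H := L) Subgroup.FiniteIndex.index_ne_zero h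
  have hapow : ∀ g, g ∈ K → ∀ n : ℕ, a (g ^ n) = n * a g := by
    intro g hg n
    induction n with
    | zero => simp [ha1]
    | succ n ih =>
      rw [pow_succ, hamul _ _ (K.pow_mem hg n) hg, ih]; push_cast; ring
  have hazpow : ∀ g, g ∈ K → ∀ n : ℤ, a (g ^ n) = n * a g := by
    intro g hg n
    obtain ⟨n, rfl | rfl⟩ := n.eq_nat_or_neg
    · rw [zpow_natCast, hapow g hg]
    · rw [zpow_neg, zpow_natCast, hainv _ (K.pow_mem hg n), hapow g hg]; ring
  have hN1 : a (h ^ N) ≠ 0 := by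
    intro h0
    have e1 : a ((h ^ N) ^ m) = 0 := by rw [hapow _ (hLK hN), h0, mul_zero]
    have e2 : a ((h ^ m) ^ N) = 0 := by
      rw [← pow_mul, mul_comm m N, pow_mul]; exact e1
    rw [hapow _ hm] at e2
    have e3 : a (h ^ m) ≠ 0 := by
      rw [ha _ hm]
      intro h4
      exact hφ (by rw [← toAdd_eq_zero]; exact h4)
    rcases mul_eq_zero.1 e2 with h5 | h5
    · have : (N : ℤ) ≠ 0 := by exact_mod_cast hN0.ne'
      exact this h5
    · exact e3 h5
  -- conjugates
  have hconj : ∀ (i : ℕ) (x : G), x ∈ L → h ^ i * x * (h ^ i)⁻¹ ∈ L := fun i x hx =>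
    (inferInstance : L.Normal).conj_mem x hx _
  let b : G → ℤ := fun x => ∑ i ∈ Finset.range N, a (h ^ i * x * (h ^ i)⁻¹)
  have hbmul : ∀ x y, x ∈ L → y ∈ L → b (x * y) = b x + b y := by
    intro x y hx hy
    simp only [b]
    rw [← Finset.sum_add_distrib]
    refine Finset.sum_congr rfl fun i _ => ?_
    rw [← hamul _ _ (hLK (hconj i x hx)) (hLK (hconj i y hy))]
    congr 1
    group
  have hbh : ∀ x, x ∈ L → b (h * x * h⁻¹) = b x := by
    intro x hx
    have e1 : ∀ i, h ^ i * (h * x * h⁻¹) * (h ^ i)⁻¹ = h ^ (i + 1) * x * (h ^ (i + 1))⁻¹ := by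
      intro i; rw [pow_succ]; group
    simp only [b, e1]
    have e2 := Finset.sum_range_succ' (fun i => a (h ^ i * x * (h ^ i)⁻¹)) N
    have e3 := Finset.sum_range_succ (fun i => a (h ^ i * x * (h ^ i)⁻¹)) N
    have e4 : a (h ^ N * x * (h ^ N)⁻¹) = a x := by
      rw [hamul _ _ (K.mul_mem (hLK hN) (hLK hx)) (K.inv_mem (hLK hN)),
        hamul _ _ (hLK hN) (hLK hx), hainv _ (hLK hN)]
      ring
    rw [e3, e4] at e2
    simp only [pow_zero, one_mul, inv_one, mul_one] at e2
    linarith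
  have hb1 : b 1 = 0 := by
    have := hbmul 1 1 L.one_mem L.one_mem
    simp only [mul_one] at this
    omega
  have hbinv : ∀ g, g ∈ L → b g⁻¹ = - b g := by
    intro g hg
    have := hbmul g g⁻¹ hg (L.inv_mem hg)
    rw [mul_inv_cancel, hb1] at this
    omega
  have hbpow : ∀ g, g ∈ L → ∀ n : ℕ, b (g ^ n) = n * b g := by
    intro g hg n
    induction n with
    | zero => simp [hb1]
    | succ n ih =>
      rw [pow_succ, hbmul _ _ (L.pow_mem hg n) hg, ih]; push_cast; ring
  have hbzpow : ∀ g, g ∈ L → ∀ n : ℤ, b (g ^ n) = n * b g := by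
    intro g hg n
    obtain ⟨n, rfl | rfl⟩ := n.eq_nat_or_neg
    · rw [zpow_natCast, hbpow g hg]
    · rw [zpow_neg, zpow_natCast, hbinv _ (L.pow_mem hg n), hbpow g hg]; ring
  have hbhn : ∀ (n : ℕ) x, x ∈ L → b (h ^ n * x * (h ^ n)⁻¹) = b x := by
    intro n
    induction n with
    | zero => intro x _; simp
    | succ n ih =>
      intro x hx
      have e1 : h ^ (n + 1) * x * (h ^ (n + 1))⁻¹ = h * (h ^ n * x * (h ^ n)⁻¹) * h⁻¹ := by
        rw [pow_succ']; group
      rw [e1, hbh _ (hconj n x hx), ih x hx]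
  have hbhz : ∀ (n : ℤ) x, x ∈ L → b (h ^ n * x * (h ^ n)⁻¹) = b x := by
    intro n x hx
    obtain ⟨n, rfl | rfl⟩ := n.eq_nat_or_neg
    · rw [zpow_natCast]; exact hbhn n x hx
    · rw [zpow_neg, zpow_natCast]
      have hx' : (h ^ n)⁻¹ * x * ((h ^ n)⁻¹)⁻¹ ∈ L :=
        (inferInstance : L.Normal).conj_mem x hx _
      have := hbhn n _ hx'
      rw [← this]
      congr 1
      group
  set d : ℤ := b (h ^ N) with hd
  have hd0 : d ≠ 0 := by
    have : d = N * a (h ^ N) := by
      simp only [hd, b]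
      have e1 : ∀ i, h ^ i * h ^ N * (h ^ i)⁻¹ = h ^ N := by
        intro i; rw [← pow_add, add_comm, pow_add]; group
      simp only [e1, Finset.sum_const, Finset.card_range, nsmul_eq_mul]
    rw [this]
    exact mul_ne_zero (by exact_mod_cast hN0.ne') hN1
  -- the relation
  let Rel : G → ℤ → Prop := fun g n => ∃ x ∈ L, ∃ i : ℤ, g = x * h ^ i ∧ N * b x + i * d = n * d
  -- the subgroup
  let J : Subgroup G :=
    { carrier := {x | x ∈ L ∧ d ∣ b x}
      mul_mem' := fun {x y} hx hy => ⟨L.mul_mem hx.1 hy.1, by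
        rw [hbmul _ _ hx.1 hy.1]; exact dvd_add hx.2 hy.2⟩
      one_mem' := ⟨L.one_mem, by rw [hb1]; exact dvd_zero _⟩
      inv_mem' := fun {x} hx => ⟨L.inv_mem hx.1, by
        rw [hbinv _ hx.1]; exact (dvd_neg).2 hx.2⟩ }
  have hJ : J.FiniteIndex := by
    -- `J` is the preimage of a subgroup
    have hrel : J.relIndex L ≠ 0 := by
      let β : L →* Multiplicative (ZMod d.natAbs) :=
        { toFun := fun x => Multiplicative.ofAdd ((b x : ℤ) : ZMod d.natAbs)
          map_one' := by simp [hb1]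
          map_mul' := fun x y => by
            rw [← ofAdd_add, ← Int.cast_add, ← hbmul _ _ x.2 y.2]; rfl }
      have hker : β.ker ≤ J.subgroupOf L := by
        intro x hx
        rw [MonoidHom.mem_ker] at hx
        have h1 : ((b x : ℤ) : ZMod d.natAbs) = 0 := by
          have := congrArg Multiplicative.toAdd hx
          simpa [β] using this
        rw [ZMod.intCast_zmod_eq_zero_iff_dvd] at h1
        rw [Subgroup.mem_subgroupOf]
        exact ⟨x.2, Int.natAbs_dvd.1 h1⟩
      have : NeZero d.natAbs := ⟨Int.natAbs_ne_zero.2 hd0⟩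
      have hfin : β.ker.FiniteIndex := by
        have : Finite (Multiplicative (ZMod d.natAbs)) := inferInstance
        exact Subgroup.finiteIndex_ker β
      exact (Subgroup.finiteIndex_of_le hker).index_ne_zero
    have hJL : J ≤ L := fun x hx => hx.1
    have := Subgroup.relIndex_mul_index hJL
    exact ⟨by rw [← this]; exact mul_ne_zero hrel Subgroup.FiniteIndex.index_ne_zero⟩
  refine isVR_of_rel h J Rel ?_ ?_ ?_ ?_ ?_
  · rintro g ⟨hg, ⟨c, hc⟩⟩
    exact ⟨N * c, g, hg, 0, by simp, by rw [hc]; ring⟩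
  · exact ⟨1, L.one_mem, 1, by simp, by rw [hb1]; ring⟩
  · rintro g g' n n' ⟨x, hx, i, rfl, h1⟩ ⟨y, hy, j, rfl, h2⟩
    have hy' : h ^ i * y * (h ^ i)⁻¹ ∈ L := (inferInstance : L.Normal).conj_mem y hy _
    refine ⟨x * (h ^ i * y * (h ^ i)⁻¹), L.mul_mem hx hy', i + j, ?_, ?_⟩
    · rw [zpow_add]; group
    · rw [hbmul _ _ hx hy', hbhz i y hy]
      linear_combination h1 + h2
  · rintro g n ⟨x, hx, i, rfl, h1⟩
    have hx' : h ^ (-i) * x⁻¹ * (h ^ (-i))⁻¹ ∈ L :=
      (inferInstance : L.Normal).conj_mem _ (L.inv_mem hx) _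
    refine ⟨h ^ (-i) * x⁻¹ * (h ^ (-i))⁻¹, hx', -i, ?_, ?_⟩
    · group
    · rw [hbhz (-i) _ (L.inv_mem hx), hbinv _ hx]
      linear_combination -h1
  · rintro n ⟨x, hx, i, h1, h2⟩
    have e1 : x = h ^ (-i) := by
      rw [zpow_neg]; exact eq_inv_of_mul_eq_one_left h1.symm
    have e2 : N * b x = (-i) * d := by
      rw [← hbpow x hx N, e1, hd, ← hbzpow _ hN, ← zpow_natCast, ← zpow_mul, ← zpow_natCast,
        ← zpow_mul, mul_comm]
    have e3 : n * d = 0 := by rw [← h2, e2]; ring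
    have e4 : n = 0 := by
      rcases mul_eq_zero.1 e3 with h | h
      · exact h
      · exact absurd h hd0
    rw [e4, zpow_zero]

/-- **Lemma C.** A homomorphism to a finite group which is injective on `⟨h⟩`. -/
theorem isVR_of_finite {F : Type v} [Group F] [Finite F] (f : G →* F) (h : G)
    (hf : ∀ n : ℤ, f (h ^ n) = 1 → h ^ n = 1) : IsVR (Subgroup.zpowers h) := by
  have : f.ker.FiniteIndex := Subgroup.finiteIndex_ker f
  refine isVR_of_rel h f.ker (fun g n => f g = f (h ^ n)) ?_ ?_ ?_ ?_ ?_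
  · intro g hg
    exact ⟨0, by rw [zpow_zero, map_one]; exact hg⟩
  · simp
  · intro g g' n n' h1 h2
    rw [map_mul, h1, h2, ← map_mul, zpow_add]
  · intro g n h1
    rw [map_inv, h1, zpow_neg, map_inv]
  · intro n h1
    exact hf n (by rw [← h1, map_one])

/-- conjugation -/
theorem isVR_conj (g h : G) (H : IsVR (Subgroup.zpowers h)) :
    IsVR (Subgroup.zpowers (g * h * g⁻¹)) := by
  obtain ⟨K, hK, hHK, ρ, hρ⟩ := H
  -- the values of the retraction, as integers
  have hex : ∀ k : K, ∃ n : ℤ, h ^ n = (ρ k : G) := fun k => by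
    obtain ⟨n, hn⟩ := (ρ k).2
    exact ⟨n, hn⟩
  let e : G ≃* G := MulAut.conj g
  have : (K.map e.toMonoidHom).FiniteIndex := by
    constructor
    have := Subgroup.index_map_equiv K e
    rw [show K.map e.toMonoidHom = K.map (e : G →* G) from rfl, this]
    exact hK.index_ne_zero
  refine isVR_of_rel (g * h * g⁻¹) (K.map e.toMonoidHom)
    (fun x n => ∃ k : K, x = g * k * g⁻¹ ∧ (ρ k : G) = h ^ n) ?_ ?_ ?_ ?_ ?_
  · rintro x ⟨k, hk, rfl⟩
    obtain ⟨n, hn⟩ := hex ⟨k, hk⟩
    exact ⟨n, ⟨k, hk⟩, rfl, hn.symm⟩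
  · refine ⟨⟨h, hHK (Subgroup.mem_zpowers h)⟩, rfl, ?_⟩
    have := hρ ⟨h, Subgroup.mem_zpowers h⟩
    have h2 := congrArg Subtype.val this
    rw [zpow_one]
    exact h2
  · rintro x y n m ⟨k, rfl, h1⟩ ⟨l, rfl, h2⟩
    refine ⟨k * l, ?_, ?_⟩
    · push_cast; group
    · rw [map_mul, Subgroup.coe_mul, h1, h2, zpow_add]
  · rintro x n ⟨k, rfl, h1⟩
    refine ⟨k⁻¹, ?_, ?_⟩
    · push_cast; group
    · rw [map_inv, Subgroup.coe_inv, h1, zpow_neg]
  · rintro n ⟨k, h1, h2⟩
    have e1 : (k : G) = 1 := by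
      have := h1.symm
      rw [mul_inv_eq_one] at this
      simpa using this
    have e2 : k = 1 := Subtype.ext e1
    rw [e2, map_one] at h2
    have e3 : h ^ n = 1 := h2.symm
    have e4 : (g * h * g⁻¹) ^ n = g * h ^ n * g⁻¹ := conj_zpow
    rw [e4, e3]; group

theorem isVR_conj_iff (g h : G) :
    IsVR (Subgroup.zpowers (g * h * g⁻¹)) ↔ IsVR (Subgroup.zpowers h) := by
  refine ⟨fun H => ?_, isVR_conj g h⟩
  have := isVR_conj g⁻¹ _ H
  convert this using 3
  group

/-- finite index from a map to a finite set -/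
theorem finiteIndex_of_map {Ω : Type v} [Finite Ω] (N : Subgroup G) (f : G → Ω)
    (hf : ∀ g g', f g = f g' → g⁻¹ * g' ∈ N) : N.FiniteIndex := by
  have : Finite (G ⧸ N) := by
    refine Finite.of_injective (fun q : G ⧸ N => f q.out) ?_
    intro q q' h
    have := hf _ _ h
    rw [← QuotientGroup.eq, QuotientGroup.out_eq', QuotientGroup.out_eq'] at this
    exact this
  exact Subgroup.finiteIndex_of_finite_quotient

/-- finite index in steps -/
theorem finiteIndex_of_map' {Ω : Type v} [Finite Ω] (K N : Subgroup G) [hK : K.FiniteIndex]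
    (hNK : N ≤ K) (f : K → Ω) (hf : ∀ g g' : K, f g = f g' → (g : G)⁻¹ * g' ∈ N) :
    N.FiniteIndex := by
  have h1 : (N.subgroupOf K).FiniteIndex := by
    refine finiteIndex_of_map _ f fun g g' h => ?_
    rw [Subgroup.mem_subgroupOf]
    exact hf g g' h
  constructor
  rw [← Subgroup.relIndex_mul_index hNK]
  exact mul_ne_zero h1.index_ne_zero hK.index_ne_zero

/-- **Lemma A.** Actions commuting with a permutation `τ` with finitely many orbits. -/
theorem isVR_of_action {T : Type v} {Ω : Type*} [Finite Ω] (Φ : G →* Equiv.Perm T)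
    (τ : Equiv.Perm T) (π : T → Ω) (hπ : ∀ s t, π s = π t → ∃ k : ℤ, t = (τ ^ k) s)
    (hτ : ∀ g t, Φ g (τ t) = τ (Φ g t)) (s : T) (hfree : ∀ k : ℤ, (τ ^ k) s = s → k = 0)
    (h : G) (m : ℕ) (k : ℤ) (hk : k ≠ 0) (hs : Φ (h ^ m) s = (τ ^ k) s) :
    IsVR (Subgroup.zpowers h) := by
  classical
  have hcomm : ∀ g, Commute (Φ g) τ := fun g => by
    apply Equiv.ext
    intro t
    exact hτ g t
  have hτk : ∀ g (n : ℤ) t, Φ g ((τ ^ n) t) = (τ ^ n) (Φ g t) := by
    intro g n t
    have := congrArg (fun e : Equiv.Perm T => e t) ((hcomm g).zpow_right n).eq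
    exact this
  let K : Subgroup G :=
    { carrier := {g | ∃ n : ℤ, Φ g s = (τ ^ n) s}
      mul_mem' := fun {a b} ha hb => by
        obtain ⟨n, hn⟩ := ha
        obtain ⟨n', hn'⟩ := hb
        exact ⟨n' + n, by
          rw [map_mul, Equiv.Perm.mul_apply, hn', hτk, hn, zpow_add, Equiv.Perm.mul_apply]⟩
      one_mem' := ⟨0, by simp⟩
      inv_mem' := fun {a} ha => by
        obtain ⟨n, hn⟩ := ha
        refine ⟨-n, ?_⟩
        rw [map_inv]
        apply (Φ a).injective
        rw [← Equiv.Perm.mul_apply, mul_inv_cancel, hτk, hn, ← Equiv.Perm.mul_apply, ← zpow_add]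
        simp }
  have hKfin : K.FiniteIndex := by
    refine finiteIndex_of_map K (fun g => π (Φ g s)) fun g g' hg => ?_
    obtain ⟨n, hn⟩ := hπ _ _ hg
    refine ⟨n, ?_⟩
    rw [map_mul, map_inv, Equiv.Perm.mul_apply, hn, ← hτk, ← Equiv.Perm.mul_apply,
      inv_mul_cancel]
    rfl
  have hu : ∀ n n' : ℤ, (τ ^ n) s = (τ ^ n') s → n = n' := by
    intro n n' h1
    have h2 : (τ ^ (-n' + n)) s = s := by
      rw [zpow_add, Equiv.Perm.mul_apply, h1, ← Equiv.Perm.mul_apply, ← zpow_add]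
      simp
    have := hfree _ h2
    omega
  let f : K → ℤ := fun g => Classical.choose g.2
  have hf : ∀ g : K, Φ g s = (τ ^ (f g)) s := fun g => Classical.choose_spec g.2
  let φ : K →* Multiplicative ℤ :=
    { toFun := fun g => Multiplicative.ofAdd (f g)
      map_one' := by
        have : f 1 = 0 := by
          apply hu
          rw [← hf 1]
          simp
        rw [this]; rfl
      map_mul' := fun a b => by
        rw [← ofAdd_add]
        congr 1
        apply hu
        rw [← hf (a * b), Subgroup.coe_mul, map_mul, Equiv.Perm.mul_apply, hf b, hτk, hf a,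
          ← Equiv.Perm.mul_apply, ← zpow_add, add_comm] }
  have hm : h ^ m ∈ K := ⟨k, hs⟩
  refine isVR_of_hom h K φ m hm ?_
  intro h1
  have h2 : f ⟨h ^ m, hm⟩ = 0 := by
    have := congrArg Multiplicative.toAdd h1
    exact this
  have h3 : f ⟨h ^ m, hm⟩ = k := hu _ _ (by rw [← hf ⟨h ^ m, hm⟩]; exact hs)
  exact hk (by rw [← h3, h2])

end Pool.Agent.Y968.VR
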