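import Pool.Agent.Y968.VR.Side2

/-!
# Elliptic elements of an amalgam
-/

set_option autoImplicit false

namespace Pool.Agent.Y968.VR

universe u v w x

variable {P : Type u} {Q : Type v} {R : Type w} {G : Type x} [Group P] [Group Q]
    [Group R] [Group G] {φ : R →* P} {ψ : R →* Q} {inP : P →* G} {inQ : Q →* G}

/-- finite quotients -/
theorem finite_quotient (H : IsAmalg φ ψ inP inQ) (A : Subgroup P) [hA : A.Normal]
    [hAf : A.FiniteIndex] (B : Subgroup Q) [hB : B.Normal] [hBf : B.FiniteIndex]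
    (hAB : ∀ r, φ r ∈ A ↔ ψ r ∈ B) :
    ∃ (T : Type (max u v)) (_ : Finite T) (Φ : G →* Equiv.Perm T), ∀ p, Φ (inP p) = 1 → p ∈ A := by
  obtain ⟨X, c, s, hX, hs, hc⟩ := exists_cosets φ A
  obtain ⟨Y, c', s', hY, hs', hc'⟩ := exists_cosets ψ B
  have hPA : Finite (P ⧸ A) := Subgroup.finite_quotient_of_finiteIndex
  let a : P × Z →* Equiv.Perm (Y × (P ⧸ A)) :=
    { toFun := fun g => Equiv.prodCongr (Equiv.refl Y) (MulAction.toPerm g.1)
      map_one' := by ext x <;> simp
      map_mul' := fun g g' => by ext x <;> simp [mul_smul] }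
  let b : Q × Z →* Equiv.Perm (X × (Q ⧸ B)) :=
    { toFun := fun g => Equiv.prodCongr (Equiv.refl X) (MulAction.toPerm g.1)
      map_one' := by ext x <;> simp
      map_mul' := fun g g' => by ext x <;> simp [mul_smul] }
  have ha : ∀ g n y (p : P), a (g, n) (y, (p : P ⧸ A)) = (y, ((g * p : P) : P ⧸ A)) :=
    fun g n y p => rfl
  have hb : ∀ g n y (p : Q), b (g, n) (y, (p : Q ⧸ B)) = (y, ((g * p : Q) : Q ⧸ B)) :=
    fun g n y p => rfl
  obtain ⟨Φ, θ, -, -, hΦ, -, -⟩ := master (I := X × Y) H a b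
    (fun i => (i.2, ((s i.1 : P) : P ⧸ A))) (fun i => (i.1, ((s' i.2 : Q) : Q ⧸ B)))
    (by
      rintro ⟨y, q⟩
      obtain ⟨p, rfl⟩ := QuotientGroup.mk_surjective q
      have h1 : c (s (c p)) = c p := hs _
      obtain ⟨r, x, hx, h2⟩ := (hc _ _).1 h1
      refine ⟨(c p, y), r, 1, ?_⟩
      rw [ha]
      refine Prod.ext rfl ?_
      show (p : P ⧸ A) = ((φ r * s (c p) : P) : P ⧸ A)
      rw [eq_comm, QuotientGroup.eq]
      have : (φ r * s (c p))⁻¹ * p = x := by
        nth_rewrite 2 [h2]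
        group
      rw [this]
      exact hx)
    (by
      rintro ⟨y, q⟩
      obtain ⟨p, rfl⟩ := QuotientGroup.mk_surjective q
      have h1 : c' (s' (c' p)) = c' p := hs' _
      obtain ⟨r, x, hx, h2⟩ := (hc' _ _).1 h1
      refine ⟨(y, c' p), r, 1, ?_⟩
      rw [hb]
      refine Prod.ext rfl ?_
      show (p : Q ⧸ B) = ((ψ r * s' (c' p) : Q) : Q ⧸ B)
      rw [eq_comm, QuotientGroup.eq]
      have : (ψ r * s' (c' p))⁻¹ * p = x := by
        nth_rewrite 2 [h2]
        group
      rw [this]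
      exact hx)
    (by
      intro i j r n r' n' h
      rw [ha, ha] at h
      have h1 : i.2 = j.2 := (Prod.ext_iff.1 h).1
      have h2 : ((φ r * s i.1 : P) : P ⧸ A) = ((φ r' * s j.1 : P) : P ⧸ A) := (Prod.ext_iff.1 h).2
      rw [QuotientGroup.eq] at h2
      have h3 : c (s i.1) = c (s j.1) := by
        rw [hc]
        refine ⟨r'⁻¹ * r, (φ r * s i.1)⁻¹ * (φ r' * s j.1), h2, ?_⟩
        rw [map_mul, map_inv]
        group
      rw [hs, hs] at h3
      exact Prod.ext h3 h1)
    (by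
      intro i j r n r' n' h
      rw [hb, hb] at h
      have h1 : i.1 = j.1 := (Prod.ext_iff.1 h).1
      have h2 : ((ψ r * s' i.2 : Q) : Q ⧸ B) = ((ψ r' * s' j.2 : Q) : Q ⧸ B) :=
        (Prod.ext_iff.1 h).2
      rw [QuotientGroup.eq] at h2
      have h3 : c' (s' i.2) = c' (s' j.2) := by
        rw [hc']
        refine ⟨r'⁻¹ * r, (ψ r * s' i.2)⁻¹ * (ψ r' * s' j.2), h2, ?_⟩
        rw [map_mul, map_inv]
        group
      rw [hs', hs'] at h3
      exact Prod.ext h1 h3)
    (by
      intro i r n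
      rw [ha, hb]
      have e1 : ((i.2, ((φ r * s i.1 : P) : P ⧸ A)) : Y × (P ⧸ A)) = (i.2, (s i.1 : P ⧸ A)) ↔
          φ r ∈ A := by
        rw [Prod.ext_iff]
        simp only [true_and]
        rw [eq_comm, QuotientGroup.eq]
        constructor
        · intro h
          have := hA.conj_mem _ h (s i.1)
          convert this using 1
          group
        · intro h
          have := hA.conj_mem _ h (s i.1)⁻¹
          convert this using 1
          group
      have e2 : ((i.1, ((ψ r * s' i.2 : Q) : Q ⧸ B)) : X × (Q ⧸ B)) = (i.1, (s' i.2 : Q ⧸ B)) ↔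
          ψ r ∈ B := by
        rw [Prod.ext_iff]
        simp only [true_and]
        rw [eq_comm, QuotientGroup.eq]
        constructor
        · intro h
          have := hB.conj_mem _ h (s' i.2)
          convert this using 1
          group
        · intro h
          have := hB.conj_mem _ h (s' i.2)⁻¹
          convert this using 1
          group
      rw [e1, e2, hAB])
  refine ⟨_, inferInstance, Φ, ?_⟩
  intro p hp
  have h1 := hΦ p (c' 1, ((1 : P) : P ⧸ A))
  rw [hp, ha] at h1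
  have h2 : ((1 : P) : P ⧸ A) = ((p * 1 : P) : P ⧸ A) := (Prod.ext_iff.1 h1).2
  rw [QuotientGroup.eq] at h2
  simpa using h2

/-- **Elliptic elements.** -/
theorem elliptic (H : IsAmalg φ ψ inP inQ) (HP : VRC P) (HQ : VRC Q)
    (hφ : Function.Injective φ) (hψ : Function.Injective ψ) (r₀ : R)
    (hr₀ : (Subgroup.zpowers r₀).FiniteIndex) (p : P) : IsVR (Subgroup.zpowers (inP p)) := by
  classical
  by_cases hp : ∀ n : ℤ, p ^ n = 1 → n = 0
  · -- infinite order
    obtain ⟨K, l, hK, hpK, hl, hlp⟩ := exists_exponent p (HP p) hp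
    obtain ⟨A, B, z, μ, hA, hAf, hAN, hB, hBf, -, hφA, hψB, hz⟩ :=
      adapted HP HQ φ ψ hφ hψ r₀ hr₀ K ⊤
    have hl1 : l 1 = 0 := by
      have := hl 1 K.one_mem 1 K.one_mem
      simp only [mul_one] at this
      omega
    have hlinv : ∀ a ∈ K, l a⁻¹ = - l a := by
      intro a ha
      have := hl a ha a⁻¹ (K.inv_mem ha)
      rw [mul_inv_cancel, hl1] at this
      omega
    have hlpow : ∀ a ∈ K, ∀ n : ℕ, l (a ^ n) = n * l a := by
      intro a ha n
      induction n with
      | zero => simp [hl1]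
      | succ n ih => rw [pow_succ, hl _ (K.pow_mem ha n) _ ha, ih]; push_cast; ring
    have hlzpow : ∀ a ∈ K, ∀ n : ℤ, l (a ^ n) = n * l a := by
      intro a ha n
      obtain ⟨n, rfl | rfl⟩ := n.eq_nat_or_neg
      · rw [zpow_natCast, hlpow a ha]
      · rw [zpow_neg, zpow_natCast, hlinv _ (K.pow_mem ha n), hlpow a ha]; ring
    obtain ⟨X, c, s, hX, hs, hc⟩ := exists_cosets φ A
    obtain ⟨Y, c', s', hY, hs', hc'⟩ := exists_cosets ψ B
    obtain ⟨m, hm0, -, hm⟩ := Subgroup.exists_pow_mem_of_index_ne_zero (H := A)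
      hAf.index_ne_zero p
    have hlm : l (p ^ m) ≠ 0 := by
      rw [hlpow p hpK, hlp, mul_one]; exact_mod_cast hm0.ne'
    have hAB : ∀ r, φ r ∈ A ↔ ψ r ∈ B := fun r => by rw [hφA, hψB]
    rcases hz with hz | ⟨hμ, hμz⟩
    · -- `R` finite
      refine product H A B hAB l (fun a ha b hb => hl a (hAN ha) b (hAN hb)) (fun _ => 0)
        (fun _ _ _ _ => by simp) c s hs hc c' s' hs' hc' (fun _ => 1) (fun _ => 0) ?_ (c' 1)
        one_ne_zero p m hm hlm
      intro x y r hr
      rw [hφA, hz, Subgroup.zpowers_one_eq_bot, Subgroup.mem_bot] at hr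
      rw [hr, map_one, mul_one, inv_mul_cancel, hl1]
      simp
    · -- `R` infinite
      have hμ1 : μ 1 = 0 := by
        have := hμ 1 B.one_mem 1 B.one_mem
        simp only [mul_one] at this
        omega
      have hμinv : ∀ a ∈ B, μ a⁻¹ = - μ a := by
        intro a ha
        have := hμ a ha a⁻¹ (B.inv_mem ha)
        rw [mul_inv_cancel, hμ1] at this
        omega
      have hμpow : ∀ a ∈ B, ∀ n : ℕ, μ (a ^ n) = n * μ a := by
        intro a ha n
        induction n with
        | zero => simp [hμ1]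
        | succ n ih => rw [pow_succ, hμ _ (B.pow_mem ha n) _ ha, ih]; push_cast; ring
      have hμzpow : ∀ a ∈ B, ∀ n : ℤ, μ (a ^ n) = n * μ a := by
        intro a ha n
        obtain ⟨n, rfl | rfl⟩ := n.eq_nat_or_neg
        · rw [zpow_natCast, hμpow a ha]
        · rw [zpow_neg, zpow_natCast, hμinv _ (B.pow_mem ha n), hμpow a ha]; ring
      have hφz : φ z ∈ A := (hφA z).2 (Subgroup.mem_zpowers z)
      have hψz : ψ z ∈ B := (hψB z).2 (Subgroup.mem_zpowers z)
      have hconjA : ∀ x, (s x)⁻¹ * φ z * s x ∈ A := fun x => by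
        have := hA.conj_mem _ hφz (s x)⁻¹
        rwa [inv_inv] at this
      have hconjB : ∀ g : Q, g⁻¹ * ψ z * g ∈ B := fun g => by
        have := hB.conj_mem _ hψz g⁻¹
        rwa [inv_inv] at this
      -- conjugates of powers
      have hAz : ∀ x (j : ℤ), l ((s x)⁻¹ * φ (z ^ j) * s x) = j * l ((s x)⁻¹ * φ z * s x) := by
        intro x j
        have e1 : (s x)⁻¹ * φ (z ^ j) * s x = ((s x)⁻¹ * φ z * s x) ^ j := by
          rw [map_zpow]
          have := (conj_zpow (i := j) (a := (s x)⁻¹) (b := φ z)).symm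
          rw [inv_inv] at this
          exact this
        rw [e1, hlzpow _ (hAN (hconjA x))]
      have hBz : ∀ (g : Q) (j : ℤ), μ (g⁻¹ * ψ (z ^ j) * g) = j * μ (g⁻¹ * ψ z * g) := by
        intro g j
        have e1 : g⁻¹ * ψ (z ^ j) * g = (g⁻¹ * ψ z * g) ^ j := by
          rw [map_zpow]
          have := (conj_zpow (i := j) (a := g⁻¹) (b := ψ z)).symm
          rw [inv_inv] at this
          exact this
        rw [e1, hμzpow _ (hconjB g)]
      have hy : μ ((s' (c' 1))⁻¹ * ψ z * s' (c' 1)) ≠ 0 := by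
        intro h0
        obtain ⟨r, b, hb, h1⟩ := (hc' (s' (c' 1)) 1).1 (hs' _)
        -- the conjugate of `z`
        have h2 : r⁻¹ * z * r ∈ Subgroup.zpowers z := by
          rw [← hψB, map_mul, map_mul, map_inv]
          exact hconjB _
        obtain ⟨j, hj⟩ := h2
        change z ^ j = _ at hj
        have h3 : ψ z = b⁻¹ * ((s' (c' 1))⁻¹ * ψ (z ^ j) * s' (c' 1)) * b := by
          rw [hj, map_mul, map_mul, map_inv]
          have h4 : ψ z = (1 : Q)⁻¹ * ψ z * 1 := by group
          nth_rewrite 1 [h4]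
          nth_rewrite 1 2 [h1]
          group
        have h5 : (s' (c' 1))⁻¹ * ψ (z ^ j) * s' (c' 1) ∈ B := by
          have h6 : ψ (z ^ j) ∈ B := (hψB _).2 ⟨j, rfl⟩
          have := hB.conj_mem _ h6 (s' (c' 1))⁻¹
          rwa [inv_inv] at this
        apply hμz
        rw [h3, hμ _ (B.mul_mem (B.inv_mem hb) h5) _ hb, hμ _ (B.inv_mem hb) _ h5, hμinv _ hb,
          hBz, h0]
        ring
      refine product H A B hAB l (fun a ha b hb => hl a (hAN ha) b (hAN hb)) μ hμ
        c s hs hc c' s' hs' hc' (fun y => μ ((s' y)⁻¹ * ψ z * s' y))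
        (fun x => l ((s x)⁻¹ * φ z * s x)) ?_ (c' 1) hy p m hm hlm
      intro x y r hr
      rw [hφA] at hr
      obtain ⟨j, hj⟩ := hr
      change z ^ j = r at hj
      rw [← hj, hAz, hBz]
      ring
  · -- finite order
    push Not at hp
    obtain ⟨n, hn, hn0⟩ := hp
    have h1 : IsOfFinOrder p := isOfFinOrder_iff_zpow_eq_one.2 ⟨n, hn0, hn⟩
    have h2 : Finite (Subgroup.zpowers p) := (finite_zpowers.2 h1).to_subtype
    have h3 : ∀ e : {x : Subgroup.zpowers p // (x : P) ≠ 1}, ∃ N : Subgroup P,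
        N.FiniteIndex ∧ (e.1 : P) ∉ N := fun e => rf HP _ e.2
    choose N hN hN' using h3
    obtain ⟨M, -, hM, hMN⟩ := exists_normal N hN
    obtain ⟨A, B, z, μ, hA, hAf, hAN, hB, hBf, -, hφA, hψB, -⟩ :=
      adapted HP HQ φ ψ hφ hψ r₀ hr₀ M ⊤
    obtain ⟨T, hT, Φ, hΦ⟩ := finite_quotient H A B (fun r => by rw [hφA, hψB])
    refine isVR_of_finite Φ (inP p) fun k hk => ?_
    rw [← map_zpow] at hk ⊢
    have h4 : p ^ k ∈ A := hΦ _ hk
    have h5 : p ^ k = 1 := by
      by_contra h6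
      exact hN' ⟨⟨p ^ k, ⟨k, rfl⟩⟩, h6⟩ (hMN _ (hAN h4))
    rw [h5, map_one]

end Pool.Agent.Y968.VR
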