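import Pool.Agent.Y968.VR.Basic

/-!
# Gluing actions of two groups along a common subgroup
-/

set_option autoImplicit false

namespace Pool.Agent.Y968.VR

universe u v w x

/-- The properties of an amalgamated free product which are used. -/
structure IsAmalg {P : Type u} {Q : Type v} {R : Type w} {G : Type x} [Group P] [Group Q]
    [Group R] [Group G] (φ : R →* P) (ψ : R →* Q) (inP : P →* G) (inQ : Q →* G) : Prop where
  comm : ∀ r, inP (φ r) = inQ (ψ r)
  gen : ∀ S : Subgroup G, (∀ p, inP p ∈ S) → (∀ q, inQ q ∈ S) → S = ⊤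
  lift : ∀ (T : Type (max u v)) (a : P →* Equiv.Perm T) (b : Q →* Equiv.Perm T),
    (∀ r, a (φ r) = b (ψ r)) → ∃ Φ : G →* Equiv.Perm T, (∀ p, Φ (inP p) = a p) ∧
      ∀ q, Φ (inQ q) = b q

theorem IsAmalg.symm {P : Type u} {Q : Type v} {R : Type w} {G : Type x} [Group P] [Group Q]
    [Group R] [Group G] {φ : R →* P} {ψ : R →* Q} {inP : P →* G} {inQ : Q →* G}
    (H : IsAmalg φ ψ inP inQ) : IsAmalg ψ φ inQ inP where
  comm r := (H.comm r).symm
  gen S h1 h2 := H.gen S h2 h1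
  lift T a b hab := by
    obtain ⟨Φ, h1, h2⟩ := H.lift T b a (fun r => (hab r).symm)
    exact ⟨Φ, h2, h1⟩

section equivariant

variable {Γ : Type*} [Group Γ] {T T' I : Type*} (α : Γ →* Equiv.Perm T) (α' : Γ →* Equiv.Perm T')
  (t : I → T) (t' : I → T')

/-- Two actions with the same stabilizers of representatives are isomorphic. -/
theorem exists_equiv
    (hcov : ∀ x : T, ∃ i γ, x = α γ (t i)) (hcov' : ∀ x : T', ∃ i γ, x = α' γ (t' i))
    (huniq : ∀ i j γ γ', α γ (t i) = α γ' (t j) → i = j)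
    (huniq' : ∀ i j γ γ', α' γ (t' i) = α' γ' (t' j) → i = j)
    (hstab : ∀ i γ, α γ (t i) = t i ↔ α' γ (t' i) = t' i) :
    ∃ θ : T ≃ T', (∀ γ x, θ (α γ x) = α' γ (θ x)) ∧ ∀ i, θ (t i) = t' i := by
  classical
  choose ι g hg using hcov
  choose ι' g' hg' using hcov'
  have key : ∀ i γ γ', α γ (t i) = α γ' (t i) ↔ α' γ (t' i) = α' γ' (t' i) := by
    intro i γ γ'
    have h1 : α γ (t i) = α γ' (t i) ↔ α (γ'⁻¹ * γ) (t i) = t i := by
      rw [map_mul, map_inv, Equiv.Perm.mul_apply, Equiv.Perm.inv_eq_iff_eq, eq_comm]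
    have h2 : α' γ (t' i) = α' γ' (t' i) ↔ α' (γ'⁻¹ * γ) (t' i) = t' i := by
      rw [map_mul, map_inv, Equiv.Perm.mul_apply, Equiv.Perm.inv_eq_iff_eq, eq_comm]
    rw [h1, h2, hstab]
  let F : T → T' := fun x => α' (g x) (t' (ι x))
  let F' : T' → T := fun x => α (g' x) (t (ι' x))
  have hF : ∀ i γ, F (α γ (t i)) = α' γ (t' i) := by
    intro i γ
    have h1 := hg (α γ (t i))
    have h2 : i = ι (α γ (t i)) := huniq _ _ _ _ h1
    simp only [F]
    rw [← h2] at h1 ⊢
    exact ((key _ _ _).1 h1).symm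
  have hF' : ∀ i γ, F' (α' γ (t' i)) = α γ (t i) := by
    intro i γ
    have h1 := hg' (α' γ (t' i))
    have h2 : i = ι' (α' γ (t' i)) := huniq' _ _ _ _ h1
    simp only [F']
    rw [← h2] at h1 ⊢
    exact ((key _ _ _).2 h1).symm
  refine ⟨⟨F, F', ?_, ?_⟩, ?_, ?_⟩
  · intro x
    rw [hg x, hF, hF']
  · intro x
    rw [hg' x, hF', hF]
  · intro γ x
    show F (α γ x) = α' γ (F x)
    have e1 : α γ x = α (γ * g x) (t (ι x)) := by
      rw [map_mul, Equiv.Perm.mul_apply, ← hg x]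
    rw [e1, hF, map_mul, Equiv.Perm.mul_apply]
  · intro i
    show F (t i) = t' i
    have := hF i 1
    simpa using this

end equivariant

section master

variable {P : Type u} {Q : Type v} {R : Type w} {G : Type x} [Group P] [Group Q]
    [Group R] [Group G] {φ : R →* P} {ψ : R →* Q} {inP : P →* G} {inQ : Q →* G}

/-- the infinite cyclic group -/
abbrev Z := Multiplicative ℤ

/-- **Gluing.** -/
theorem master (H : IsAmalg φ ψ inP inQ) {T T' : Type (max u v)} {I : Type*}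
    (A : P × Z →* Equiv.Perm T) (B : Q × Z →* Equiv.Perm T') (t : I → T) (t' : I → T')
    (hcov : ∀ x : T, ∃ i r n, x = A (φ r, n) (t i))
    (hcov' : ∀ x : T', ∃ i r n, x = B (ψ r, n) (t' i))
    (huniq : ∀ i j r n r' n', A (φ r, n) (t i) = A (φ r', n') (t j) → i = j)
    (huniq' : ∀ i j r n r' n', B (ψ r, n) (t' i) = B (ψ r', n') (t' j) → i = j)
    (hstab : ∀ i r n, A (φ r, n) (t i) = t i ↔ B (ψ r, n) (t' i) = t' i) :
    ∃ (Φ : G →* Equiv.Perm T) (θ : T ≃ T'), (∀ i, θ (t i) = t' i) ∧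
      (∀ n x, θ (A (1, n) x) = B (1, n) (θ x)) ∧
      (∀ p x, Φ (inP p) x = A (p, 1) x) ∧ (∀ q x, θ (Φ (inQ q) x) = B (q, 1) (θ x)) ∧
      (∀ g n x, Φ g (A (1, n) x) = A (1, n) (Φ g x)) := by
  let α : R × Z →* Equiv.Perm T := A.comp (φ.prodMap (MonoidHom.id Z))
  let β : R × Z →* Equiv.Perm T' := B.comp (ψ.prodMap (MonoidHom.id Z))
  have hα : ∀ r n, α (r, n) = A (φ r, n) := fun r n => rfl
  have hβ : ∀ r n, β (r, n) = B (ψ r, n) := fun r n => rfl
  obtain ⟨θ, hθ1, hθ2⟩ := exists_equiv α β t t'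
    (fun x => by obtain ⟨i, r, n, h⟩ := hcov x; exact ⟨i, (r, n), h⟩)
    (fun x => by obtain ⟨i, r, n, h⟩ := hcov' x; exact ⟨i, (r, n), h⟩)
    (fun i j γ γ' h => huniq i j γ.1 γ.2 γ'.1 γ'.2 h)
    (fun i j γ γ' h => huniq' i j γ.1 γ.2 γ'.1 γ'.2 h)
    (fun i γ => hstab i γ.1 γ.2)
  have hθR : ∀ r x, θ (A (φ r, 1) x) = B (ψ r, 1) (θ x) := fun r x => hθ1 (r, 1) x
  have hθZ : ∀ n x, θ (A (1, n) x) = B (1, n) (θ x) := fun n x => by
    have := hθ1 (1, n) x
    rw [hα, hβ, map_one, map_one] at this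
    exact this
  -- the two actions on `T`
  let a : P →* Equiv.Perm T := A.comp (MonoidHom.inl P Z)
  let b : Q →* Equiv.Perm T := (θ.symm.permCongrHom.toMonoidHom).comp (B.comp (MonoidHom.inl Q Z))
  have ha : ∀ p x, a p x = A (p, 1) x := fun p x => rfl
  have hb : ∀ q x, θ (b q x) = B (q, 1) (θ x) := fun q x => by
    show θ (θ.symm (B (q, 1) (θ.symm.symm x))) = _
    rw [Equiv.apply_symm_apply, Equiv.symm_symm]
  obtain ⟨Φ, h1, h2⟩ := H.lift T a b (fun r => by
    apply Equiv.ext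
    intro x
    apply θ.injective
    rw [ha, hb, hθR])
  have h3 : ∀ p x, Φ (inP p) x = A (p, 1) x := fun p x => by rw [h1, ha]
  have h4 : ∀ q x, θ (Φ (inQ q) x) = B (q, 1) (θ x) := fun q x => by rw [h2, hb]
  refine ⟨Φ, θ, hθ2, hθZ, h3, h4, ?_⟩
  -- commutation
  let S : Subgroup G :=
    { carrier := {g | ∀ n x, Φ g (A (1, n) x) = A (1, n) (Φ g x)}
      mul_mem' := fun {g g'} hg hg' n x => by
        rw [map_mul, Equiv.Perm.mul_apply, hg' n x, hg n, Equiv.Perm.mul_apply]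
      one_mem' := fun n x => by simp
      inv_mem' := fun {g} hg n x => by
        apply (Φ g).injective
        have e : ∀ y, Φ g ((Φ g)⁻¹ y) = y := fun y => (Φ g).apply_symm_apply y
        rw [hg, map_inv, e, e] }
  have hS : S = ⊤ := by
    apply H.gen
    · intro p n x
      rw [h3, h3, ← Equiv.Perm.mul_apply, ← Equiv.Perm.mul_apply, ← map_mul, ← map_mul]
      simp
    · intro q n x
      apply θ.injective
      rw [h4, hθZ, hθZ, h4, ← Equiv.Perm.mul_apply, ← Equiv.Perm.mul_apply, ← map_mul, ← map_mul]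
      simp
  intro g
  have : g ∈ S := by rw [hS]; exact Subgroup.mem_top g
  exact this

end master

/-- Double cosets `φ(R) \ P / A` with representatives. -/
theorem exists_cosets {P : Type u} {R : Type w} [Group P] [Group R] (φ : R →* P)
    (A : Subgroup P) [hA : A.FiniteIndex] :
    ∃ (X : Type u) (c : P → X) (s : X → P), Finite X ∧ (∀ x, c (s x) = x) ∧
      ∀ p p', c p = c p' ↔ ∃ r, ∃ a ∈ A, p' = φ r * p * a := by
  let S : Setoid P :=
    { r := fun p p' => ∃ r, ∃ a ∈ A, p' = φ r * p * a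
      iseqv :=
        { refl := fun p => ⟨1, 1, A.one_mem, by simp⟩
          symm := by
            rintro p p' ⟨r, a, ha, rfl⟩
            exact ⟨r⁻¹, a⁻¹, A.inv_mem ha, by rw [map_inv]; group⟩
          trans := by
            rintro p p' p'' ⟨r, a, ha, rfl⟩ ⟨r', a', ha', rfl⟩
            exact ⟨r' * r, a * a', A.mul_mem ha ha', by rw [map_mul]; group⟩ } }
  refine ⟨Quotient S, Quotient.mk S, Quotient.out, ?_, fun x => Quotient.out_eq x, ?_⟩
  · have : Finite (P ⧸ A) := Subgroup.finite_quotient_of_finiteIndex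
    refine Finite.of_surjective (fun q : P ⧸ A => Quotient.mk S q.out) ?_
    intro x
    obtain ⟨p, rfl⟩ := Quotient.exists_rep x
    refine ⟨(p : P ⧸ A), ?_⟩
    apply Quotient.sound
    show ∃ r, ∃ a ∈ A, p = φ r * (p : P ⧸ A).out * a
    refine ⟨1, (p : P ⧸ A).out⁻¹ * p, ?_, by rw [map_one]; group⟩
    rw [← QuotientGroup.eq, QuotientGroup.out_eq']
  · intro p p'
    exact ⟨fun h => Quotient.exact h, fun h => Quotient.sound h⟩

end Pool.Agent.Y968.VR
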