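import Pool.Agent.Y968.VR.Elliptic

/-!
# Hyperbolic elements of an amalgam
-/

set_option autoImplicit false

namespace Pool.Agent.Y968.VR

universe u v w x

/-- extension of a partial injection of a finite set -/
theorem exists_perm {E J : Type*} [Finite E] (f g : J → E) (hf : Function.Injective f)
    (hg : Function.Injective g) : ∃ b : Equiv.Perm E, ∀ z, b (f z) = g z := by
  classical
  have := Fintype.ofFinite E
  let e : {x // x ∈ Set.range f} ≃ {x // x ∈ Set.range g} :=
    (Equiv.ofInjective f hf).symm.trans (Equiv.ofInjective g hg)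
  refine ⟨e.extendSubtype, fun z => ?_⟩
  rw [Equiv.extendSubtype_apply_of_mem e (f z) ⟨z, rfl⟩]
  have h1 : (Equiv.ofInjective f hf).symm ⟨f z, ⟨z, rfl⟩⟩ = z := by
    rw [Equiv.symm_apply_eq]; rfl
  show ((Equiv.ofInjective g hg) ((Equiv.ofInjective f hf).symm ⟨f z, ⟨z, rfl⟩⟩) : E) = g z
  rw [h1]
  rfl

variable {P : Type u} {Q : Type v} {R : Type w} {G : Type x} [Group P] [Group Q]
    [Group R] [Group G] {φ : R →* P} {ψ : R →* Q} {inP : P →* G} {inQ : Q →* G}

/-- the action on cosets, labels and integers -/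
def cact (A : Subgroup P) (L : Type v) : P × Z →* Equiv.Perm ((P ⧸ A) × L × Z) where
  toFun g := Equiv.prodCongr (MulAction.toPerm g.1)
    (Equiv.prodCongr (Equiv.refl L) (Equiv.mulLeft g.2))
  map_one' := by ext x <;> simp
  map_mul' g g' := by ext x <;> simp [mul_smul, mul_assoc]

theorem cact_apply (A : Subgroup P) (L : Type v) (g : P) (m : Z) (p : P) (i : L) (k : Z) :
    cact A L (g, m) ((p : P ⧸ A), i, k) = (((g * p : P) : P ⧸ A), i, m * k) := rfl

/-- the hypotheses of the gluing theorem on one side -/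
theorem cact_side (A : Subgroup P) [hA : A.Normal] (L : Type v) {X : Type u} (c : P → X)
    (hc : ∀ p p', c p = c p' ↔ ∃ r, ∃ a ∈ A, p' = φ r * p * a) {I : Type*}
    (e : I ≃ X × L) (g : I → P) (hg : ∀ i, c (g i) = (e i).1) (k : I → Z) :
    (∀ x, ∃ i r n, x = cact A L (φ r, n) (((g i : P) : P ⧸ A), (e i).2, k i)) ∧
    (∀ i j r n r' n', cact A L (φ r, n) (((g i : P) : P ⧸ A), (e i).2, k i) =
      cact A L (φ r', n') (((g j : P) : P ⧸ A), (e j).2, k j) → i = j) ∧
    (∀ i r n, cact A L (φ r, n) (((g i : P) : P ⧸ A), (e i).2, k i) =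
      (((g i : P) : P ⧸ A), (e i).2, k i) ↔ φ r ∈ A ∧ n = 1) := by
  refine ⟨?_, ?_, ?_⟩
  · rintro ⟨q, y, m⟩
    obtain ⟨p, rfl⟩ := QuotientGroup.mk_surjective q
    set i := e.symm (c p, y) with hi
    have he : e i = (c p, y) := by rw [hi, Equiv.apply_symm_apply]
    have h1 : c (g i) = c p := by rw [hg, he]
    obtain ⟨r, a, ha, h2⟩ := (hc _ _).1 h1
    refine ⟨i, r, m * (k i)⁻¹, ?_⟩
    rw [cact_apply, he]
    refine Prod.ext ?_ (Prod.ext rfl ?_)
    · show (p : P ⧸ A) = ((φ r * g i : P) : P ⧸ A)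
      rw [eq_comm, QuotientGroup.eq]
      have : (φ r * g i)⁻¹ * p = a := by rw [h2]; group
      rw [this]
      exact ha
    · show m = m * (k i)⁻¹ * k i
      group
  · intro i j r n r' n' h
    rw [cact_apply, cact_apply] at h
    obtain ⟨h1, h2⟩ := Prod.ext_iff.1 h
    obtain ⟨h3, -⟩ := Prod.ext_iff.1 h2
    change ((φ r * g i : P) : P ⧸ A) = ((φ r' * g j : P) : P ⧸ A) at h1
    change (e i).2 = (e j).2 at h3
    rw [QuotientGroup.eq] at h1
    have h4 : c (g i) = c (g j) := by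
      rw [hc]
      refine ⟨r'⁻¹ * r, (φ r * g i)⁻¹ * (φ r' * g j), h1, ?_⟩
      rw [map_mul, map_inv]
      group
    rw [hg, hg] at h4
    exact e.injective (Prod.ext h4 h3)
  · intro i r n
    have e0 : (g i)⁻¹ * φ r * g i ∈ A ↔ φ r ∈ A := by
      constructor
      · intro h
        have := hA.conj_mem _ h (g i)
        convert this using 1
        group
      · intro h
        have := hA.conj_mem _ h (g i)⁻¹
        convert this using 1
        group
    rw [cact_apply]
    constructor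
    · intro h
      obtain ⟨h1, h2⟩ := Prod.ext_iff.1 h
      obtain ⟨-, h3⟩ := Prod.ext_iff.1 h2
      change ((φ r * g i : P) : P ⧸ A) = ((g i : P) : P ⧸ A) at h1
      change n * k i = k i at h3
      rw [eq_comm, QuotientGroup.eq, ← mul_assoc] at h1
      exact ⟨e0.1 h1, by simpa using h3⟩
    · rintro ⟨h1, rfl⟩
      refine Prod.ext ?_ (Prod.ext rfl (one_mul _))
      show ((φ r * g i : P) : P ⧸ A) = ((g i : P) : P ⧸ A)
      rw [eq_comm, QuotientGroup.eq, ← mul_assoc]
      exact e0.2 h1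

/-- **Hyperbolic elements.** -/
theorem hyperbolic (H : IsAmalg φ ψ inP inQ) (HP : VRC P) (HQ : VRC Q)
    (hφ : Function.Injective φ) (hψ : Function.Injective ψ) (r₀ : R)
    (hr₀ : (Subgroup.zpowers r₀).FiniteIndex) (l : List (P × Q)) (hl : l ≠ [])
    (h1 : ∀ x ∈ l, ∀ r, φ r ≠ x.1) (h2 : ∀ x ∈ l, ∀ r, ψ r ≠ x.2) :
    IsVR (Subgroup.zpowers (l.map fun x => inP x.1 * inQ x.2).prod) := by
  classical
  -- the subgroups
  have hN : ∀ x : {x // x ∈ l}, ∃ N : Subgroup P, N.FiniteIndex ∧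
      ∀ r, ∀ n ∈ N, φ r * n ≠ x.1.1 := fun x => sep HP φ r₀ hr₀ _ (h1 x.1 x.2)
  have hM : ∀ x : {x // x ∈ l}, ∃ N : Subgroup Q, N.FiniteIndex ∧
      ∀ r, ∀ n ∈ N, ψ r * n ≠ x.1.2 := fun x => sep HQ ψ r₀ hr₀ _ (h2 x.1 x.2)
  choose N hNf hN using hN
  choose M hMf hM using hM
  have hfin : Finite {x // x ∈ l} := (List.finite_toSet l).to_subtype
  obtain ⟨N', -, hN'f, hN'⟩ := exists_normal N hNf
  obtain ⟨M', -, hM'f, hM'⟩ := exists_normal M hMf
  obtain ⟨A, B, z, μ, hA, hAf, hAN, hB, hBf, hBM, hφA, hψB, -⟩ :=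
    adapted HP HQ φ ψ hφ hψ r₀ hr₀ N' M'
  obtain ⟨X, c, s, hX, hs, hc⟩ := exists_cosets φ A
  obtain ⟨Y, c', s', hY, hs', hc'⟩ := exists_cosets ψ B
  have hcl : ∀ x ∈ l, c x.1 ≠ c 1 := by
    intro x hx h
    obtain ⟨r, a, ha, h3⟩ := (hc _ _).1 h.symm
    rw [mul_one] at h3
    exact hN ⟨x, hx⟩ r a (hN' _ (hAN ha)) h3.symm
  have hcl' : ∀ x ∈ l, c' x.2 ≠ c' 1 := by
    intro x hx h
    obtain ⟨r, a, ha, h3⟩ := (hc' _ _).1 h.symm
    rw [mul_one] at h3
    exact hM ⟨x, hx⟩ r a (hM' _ (hBM ha)) h3.symm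
  -- the path
  set n := l.length with hn
  have hn0 : n ≠ 0 := by
    rw [hn]; exact fun h => hl (List.length_eq_zero_iff.1 h)
  have : NeZero n := ⟨hn0⟩
  let pq : ZMod n → P × Q := fun i => l.get ⟨i.val, ZMod.val_lt i⟩
  have hpq : ∀ i, pq i ∈ l := fun i => List.get_mem _ _
  have hcp : ∀ i, c (pq i).1 ≠ c 1 := fun i => hcl _ (hpq i)
  have hcq : ∀ i, c' (pq i).2 ≠ c' 1 := fun i => hcl' _ (hpq i)
  -- the permutation
  obtain ⟨b, hb⟩ := exists_perm (E := X × Y × ZMod n) (J := ZMod n ⊕ ZMod n)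
    (fun z => Sum.elim (fun i => (c 1, c' 1, i)) (fun i => (c (pq i).1, c' 1, i)) z)
    (fun z => Sum.elim (fun i => (c 1, c' (pq i).2, i)) (fun i => (c 1, c' 1, i - 1)) z)
    (by
      rintro (i | i) (j | j) h
      · have : i = j := by simpa using h
        rw [this]
      · exfalso
        have h3 : c 1 = c (pq j).1 := (Prod.ext_iff.1 h).1
        exact hcp j h3.symm
      · exfalso
        have h3 : c (pq i).1 = c 1 := (Prod.ext_iff.1 h).1
        exact hcp i h3
      · have : i = j := (Prod.ext_iff.1 (Prod.ext_iff.1 h).2).2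
        rw [this])
    (by
      rintro (i | i) (j | j) h
      · have : i = j := (Prod.ext_iff.1 (Prod.ext_iff.1 h).2).2
        rw [this]
      · exfalso
        have h3 : c' (pq i).2 = c' 1 := (Prod.ext_iff.1 (Prod.ext_iff.1 h).2).1
        exact hcq i h3
      · exfalso
        have h3 : c' 1 = c' (pq j).2 := (Prod.ext_iff.1 (Prod.ext_iff.1 h).2).1
        exact hcq j h3.symm
      · have : i - 1 = j - 1 := (Prod.ext_iff.1 (Prod.ext_iff.1 h).2).2
        rw [sub_left_inj] at this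
        rw [this])
  have hb1 : ∀ i, b (c 1, c' 1, i) = (c 1, c' (pq i).2, i) := fun i => hb (Sum.inl i)
  have hb2 : ∀ i, b (c (pq i).1, c' 1, i) = (c 1, c' 1, i - 1) := fun i => hb (Sum.inr i)
  -- the representatives
  let gP : X × Y × ZMod n → P := fun e =>
    if e.1 = c (pq e.2.2).1 then (pq e.2.2).1 else if e.1 = c 1 then 1 else s e.1
  let gQ : X × Y × ZMod n → Q := fun e =>
    if (b e).2.1 = c' (pq (b e).2.2).2 then (pq (b e).2.2).2 else
      if (b e).2.1 = c' 1 then 1 else s' (b e).2.1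
  let k : X × Y × ZMod n → Z := fun e =>
    if e.1 = c (pq e.2.2).1 then Multiplicative.ofAdd 1 else 1
  have hgP : ∀ e, c (gP e) = e.1 := by
    intro e
    simp only [gP]
    split_ifs with h3 h4
    · exact h3.symm
    · exact h4.symm
    · exact hs _
  have hgQ : ∀ e, c' (gQ e) = (b e).2.1 := by
    intro e
    simp only [gQ]
    split_ifs with h3 h4
    · exact h3.symm
    · exact h4.symm
    · exact hs' _
  let e1 : X × Y × ZMod n ≃ X × (Y × ZMod n) := Equiv.refl _
  let e2 : X × Y × ZMod n ≃ Y × (X × ZMod n) :=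
    b.trans
      { toFun := fun e => (e.2.1, e.1, e.2.2)
        invFun := fun e => (e.2.1, e.1, e.2.2)
        left_inv := fun e => rfl
        right_inv := fun e => rfl }
  obtain ⟨s1, s2, s3⟩ := cact_side (φ := φ) A (Y × ZMod n) c hc e1 gP hgP (fun _ => 1)
  obtain ⟨s1', s2', s3'⟩ := cact_side (φ := ψ) B (X × ZMod n) c' hc' e2 gQ hgQ k
  obtain ⟨Φ, θ, hθ, hθZ, hΦP, hΦQ, hcomm⟩ := master H (cact A (Y × ZMod n)) (cact B (X × ZMod n))
    (fun i => (((gP i : P) : P ⧸ A), (e1 i).2, 1)) (fun i => (((gQ i : Q) : Q ⧸ B), (e2 i).2, k i))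
    s1 s1' s2 s2'
    (fun i r m => by rw [s3, s3', hφA, hψB])
  -- one step
  have step : ∀ i (m : Z), θ (Φ (inP (pq i).1 * inQ (pq i).2)
      (θ.symm (((1 : Q) : Q ⧸ B), (c 1, i), m))) =
      (((1 : Q) : Q ⧸ B), (c 1, i - 1), m * Multiplicative.ofAdd 1) := by
    intro i m
    rw [map_mul, Equiv.Perm.mul_apply]
    -- the first half
    have f1 : Φ (inQ (pq i).2) (θ.symm (((1 : Q) : Q ⧸ B), (c 1, i), m)) =
        cact A (Y × ZMod n) (1, m) (((1 : P) : P ⧸ A), (c' 1, i), 1) := by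
      apply θ.injective
      rw [hΦQ, Equiv.apply_symm_apply, hθZ, cact_apply, mul_one, one_mul]
      have g1 := hθ (c 1, c' 1, i)
      have g2 : gP (c 1, c' 1, i) = 1 := by
        simp only [gP]
        rw [if_neg (hcp i).symm]
        simp
      have g3 : gQ (c 1, c' 1, i) = (pq i).2 := by
        simp only [gQ, hb1]
        simp
      have g4 : k (c 1, c' 1, i) = 1 := by
        simp only [k]
        rw [if_neg (hcp i).symm]
      have g5 : (e2 (c 1, c' 1, i)).2 = (c 1, i) := by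
        show ((b (c 1, c' 1, i)).1, (b (c 1, c' 1, i)).2.2) = _
        rw [hb1]
      rw [g2, g3, g4, g5] at g1
      have g6 : (e1 (c 1, c' 1, i)).2 = (c' 1, i) := rfl
      rw [g6] at g1
      rw [g1, cact_apply, one_mul, mul_one]
    rw [f1, hΦP, ← Equiv.Perm.mul_apply, ← map_mul, Prod.mk_mul_mk, mul_one, one_mul]
    have f2 : cact A (Y × ZMod n) ((pq i).1, m) (((1 : P) : P ⧸ A), (c' 1, i), 1) =
        cact A (Y × ZMod n) (1, m) ((((pq i).1 : P) : P ⧸ A), (c' 1, i), 1) := by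
      rw [cact_apply, cact_apply, mul_one, one_mul]
    rw [f2, hθZ]
    have g1 := hθ (c (pq i).1, c' 1, i)
    have g2 : gP (c (pq i).1, c' 1, i) = (pq i).1 := by
      simp [gP]
    have g3 : gQ (c (pq i).1, c' 1, i) = 1 := by
      simp only [gQ, hb2]
      rw [if_neg (hcq _).symm]
      simp
    have g4 : k (c (pq i).1, c' 1, i) = Multiplicative.ofAdd 1 := by
      simp [k]
    have g5 : (e2 (c (pq i).1, c' 1, i)).2 = (c 1, i - 1) := by
      show ((b (c (pq i).1, c' 1, i)).1, (b (c (pq i).1, c' 1, i)).2.2) = _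
      rw [hb2]
    rw [g2, g3, g4, g5] at g1
    have g6 : (e1 (c (pq i).1, c' 1, i)).2 = (c' 1, i) := rfl
    rw [g6] at g1
    rw [g1, cact_apply, one_mul]
  -- the whole path
  have path : ∀ (l2 l1 : List (P × Q)), l = l1 ++ l2 →
      θ (Φ (l2.map fun x => inP x.1 * inQ x.2).prod
        (θ.symm (((1 : Q) : Q ⧸ B), (c 1, (-1 : ZMod n)), 1))) =
        (((1 : Q) : Q ⧸ B), (c 1, (l1.length : ZMod n) - 1),
          Multiplicative.ofAdd (l2.length : ℤ)) := by
    intro l2
    induction l2 with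
    | nil =>
      intro l1 h
      rw [List.append_nil] at h
      rw [List.map_nil, List.prod_nil, map_one]
      show θ (θ.symm _) = _
      rw [Equiv.apply_symm_apply, ← h, ← hn, ZMod.natCast_self, zero_sub]
      rfl
    | cons x l2 ih =>
      intro l1 h
      have h3 : l = (l1 ++ [x]) ++ l2 := by rw [h]; simp
      have h4 := ih _ h3
      rw [List.map_cons, List.prod_cons, map_mul, Equiv.Perm.mul_apply]
      have h5 : Φ (l2.map fun x => inP x.1 * inQ x.2).prod
          (θ.symm (((1 : Q) : Q ⧸ B), (c 1, (-1 : ZMod n)), 1)) =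
          θ.symm (((1 : Q) : Q ⧸ B), (c 1, ((l1 ++ [x]).length : ZMod n) - 1),
          Multiplicative.ofAdd (l2.length : ℤ)) := by
        rw [← h4, Equiv.symm_apply_apply]
      rw [h5]
      have h6 : ((l1 ++ [x]).length : ZMod n) - 1 = (l1.length : ZMod n) := by
        rw [List.length_append, List.length_singleton]; push_cast; ring
      rw [h6]
      have hlt : l1.length < n := by
        rw [hn, h]; simp
      have h7 : pq (l1.length : ZMod n) = x := by
        simp only [pq]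
        have h8 : ((l1.length : ZMod n)).val = l1.length := ZMod.val_cast_of_lt hlt
        have h9 : l.get ⟨((l1.length : ZMod n)).val, ZMod.val_lt _⟩ =
            l.get ⟨l1.length, hlt⟩ := by
          congr 1
          exact Fin.ext h8
        rw [h9]
        simp [h]
      have h8 := step (l1.length : ZMod n) (Multiplicative.ofAdd (l2.length : ℤ))
      rw [h7] at h8
      rw [h8]
      refine Prod.ext rfl (Prod.ext rfl ?_)
      show Multiplicative.ofAdd (l2.length : ℤ) * Multiplicative.ofAdd 1 = _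
      rw [← ofAdd_add]
      simp
  -- conclusion
  have hτ : ∀ (j : ℤ) x, ((cact A (Y × ZMod n) (1, Multiplicative.ofAdd 1)) ^ j) x =
      cact A (Y × ZMod n) (1, Multiplicative.ofAdd j) x := by
    intro j x
    rw [← map_zpow]
    have : ((1, Multiplicative.ofAdd 1) : P × Z) ^ j = (1, Multiplicative.ofAdd j) := by
      ext
      · simp
      · simp [← ofAdd_zsmul]
    rw [this]
  have hPA : Finite (P ⧸ A) := Subgroup.finite_quotient_of_finiteIndex
  refine isVR_of_action (Ω := (P ⧸ A) × (Y × ZMod n)) Φ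
    (cact A (Y × ZMod n) (1, Multiplicative.ofAdd 1)) (fun x => (x.1, x.2.1)) ?_ ?_
    (θ.symm (((1 : Q) : Q ⧸ B), (c 1, (-1 : ZMod n)), 1)) ?_ _ 1 n (by exact_mod_cast hn0) ?_
  · rintro ⟨x1, x2, x3⟩ ⟨y1, y2, y3⟩ h
    obtain ⟨h3, h4⟩ := Prod.ext_iff.1 h
    change x1 = y1 at h3
    change x2 = y2 at h4
    subst h3 h4
    obtain ⟨p, rfl⟩ := QuotientGroup.mk_surjective x1
    refine ⟨Multiplicative.toAdd (y3 * x3⁻¹), ?_⟩
    rw [hτ, cact_apply, one_mul, ofAdd_toAdd, inv_mul_cancel_right]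
  · intro g t
    exact hcomm g _ t
  · intro j hj
    rw [hτ] at hj
    generalize θ.symm (((1 : Q) : Q ⧸ B), (c 1, (-1 : ZMod n)), (1 : Z)) = x at hj
    obtain ⟨x1, x2, x3⟩ := x
    obtain ⟨p, rfl⟩ := QuotientGroup.mk_surjective x1
    rw [cact_apply] at hj
    have h3 : Multiplicative.ofAdd j * x3 = x3 := (Prod.ext_iff.1 (Prod.ext_iff.1 hj).2).2
    have h4 : Multiplicative.ofAdd j = 1 := by simpa using h3
    exact h4
  · rw [pow_one, hτ]
    apply θ.injective
    have h3 := path l [] rfl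
    rw [h3, hθZ, Equiv.apply_symm_apply, cact_apply]
    refine Prod.ext ?_ (Prod.ext ?_ ?_)
    · show ((1 : Q) : Q ⧸ B) = ((1 * 1 : Q) : Q ⧸ B)
      rw [one_mul]
    · show ((c 1, ((([] : List (P × Q)).length : ℕ) : ZMod n) - 1) : X × ZMod n) = (c 1, -1)
      simp
    · show Multiplicative.ofAdd (l.length : ℤ) = Multiplicative.ofAdd (n : ℤ) * 1
      rw [mul_one]

end Pool.Agent.Y968.VR
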