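import Pool.Agent.Y968.VR.Hyper

/-!
# Property (VRC) for amalgams over virtually cyclic subgroups
-/

set_option autoImplicit false

namespace Pool.Agent.Y968.VR

universe u v w x

variable {P : Type u} {Q : Type v} {R : Type w} {G : Type x} [Group P] [Group Q]
    [Group R] [Group G] {φ : R →* P} {ψ : R →* Q} {inP : P →* G} {inQ : Q →* G}

/-- all elements are products -/
theorem exists_word (H : IsAmalg φ ψ inP inQ) (g : G) :
    ∃ l : List (P × Q), g = (l.map fun x => inP x.1 * inQ x.2).prod := by
  let S : Subgroup G :=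
    { carrier := {g | ∃ l : List (P × Q), g = (l.map fun x => inP x.1 * inQ x.2).prod}
      mul_mem' := fun {a b} ha hb => by
        obtain ⟨l, rfl⟩ := ha
        obtain ⟨l', rfl⟩ := hb
        exact ⟨l ++ l', by rw [List.map_append, List.prod_append]⟩
      one_mem' := ⟨[], rfl⟩
      inv_mem' := fun {a} ha => by
        obtain ⟨l, rfl⟩ := ha
        induction l with
        | nil => exact ⟨[], by simp⟩
        | cons x l ih =>
          obtain ⟨l', hl'⟩ := ih
          refine ⟨l' ++ [(1, x.2⁻¹), (x.1⁻¹, 1)], ?_⟩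
          rw [List.map_append, List.prod_append, ← hl', List.map_cons, List.prod_cons]
          simp [mul_assoc] }
  have hS : S = ⊤ := by
    apply H.gen
    · intro p
      exact ⟨[(p, 1)], by simp⟩
    · intro q
      exact ⟨[(1, q)], by simp⟩
  have : g ∈ S := by rw [hS]; exact Subgroup.mem_top g
  exact this

theorem word_isVR (H : IsAmalg φ ψ inP inQ) (HP : VRC P) (HQ : VRC Q)
    (hφ : Function.Injective φ) (hψ : Function.Injective ψ) (r₀ : R)
    (hr₀ : (Subgroup.zpowers r₀).FiniteIndex) (n : ℕ) : ∀ l : List (P × Q), l.length = n →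
    IsVR (Subgroup.zpowers (l.map fun x => inP x.1 * inQ x.2).prod) := by
  classical
  induction n using Nat.strong_induction_on with
  | _ n ih =>
  intro l hln
  by_cases h : ∀ x ∈ l, (∀ r, φ r ≠ x.1) ∧ ∀ r, ψ r ≠ x.2
  · by_cases hl : l = []
    · rw [hl, List.map_nil, List.prod_nil]
      have := elliptic H HP HQ hφ hψ r₀ hr₀ 1
      rwa [map_one] at this
    · exact hyperbolic H HP HQ hφ hψ r₀ hr₀ l hl (fun x hx => (h x hx).1) (fun x hx => (h x hx).2)
  · push Not at h
    obtain ⟨x, hx, h⟩ := h
    obtain ⟨l1, l2, rfl⟩ := List.append_of_mem hx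
    -- a conjugate
    set f : P × Q → G := fun x => inP x.1 * inQ x.2 with hf
    have hconj : ((l1 ++ x :: l2).map f).prod =
        (l1.map f).prod * (f x * ((l2 ++ l1).map f).prod) * ((l1.map f).prod)⁻¹ := by
      rw [List.map_append, List.prod_append, List.map_cons, List.prod_cons, List.map_append,
        List.prod_append]
      group
    rw [hconj, isVR_conj_iff]
    have hlen : (l2 ++ l1).length + 1 = n := by
      rw [← hln]; simp only [List.length_append, List.length_cons]; omega
    generalize hl' : l2 ++ l1 = l' at hlen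
    by_cases h3 : ∃ r, φ r = x.1
    · obtain ⟨r, hr⟩ := h3
      have hfx : f x = inQ (ψ r * x.2) := by
        rw [hf]
        show inP x.1 * inQ x.2 = _
        rw [← hr, H.comm, map_mul]
      rcases List.eq_nil_or_concat l' with h4 | ⟨l'', y, h4⟩
      · rw [h4, List.map_nil, List.prod_nil, mul_one, hfx]
        exact elliptic H.symm HQ HP hψ hφ r₀ hr₀ _
      · rw [List.concat_eq_append] at h4
        have e1 : f x * (l'.map f).prod =
            f x * ((l'' ++ [(y.1, y.2 * (ψ r * x.2))]).map f).prod * (f x)⁻¹ := by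
          rw [h4, List.map_append, List.prod_append, List.map_append, List.prod_append]
          simp only [List.map_cons, List.map_nil, List.prod_cons, List.prod_nil, mul_one]
          rw [hfx]
          simp only [hf, map_mul]
          group
        rw [e1, isVR_conj_iff]
        refine ih _ ?_ _ rfl
        rw [← hlen, h4]
        simp only [List.length_append, List.length_singleton]
        omega
    · push Not at h3
      obtain ⟨r, hr⟩ := h h3
      have hfx : f x = inP (x.1 * φ r) := by
        rw [hf]
        show inP x.1 * inQ x.2 = _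
        rw [← hr, ← H.comm, map_mul]
      rcases l' with _ | ⟨y, l''⟩
      · rw [List.map_nil, List.prod_nil, mul_one, hfx]
        exact elliptic H HP HQ hφ hψ r₀ hr₀ _
      · have e1 : f x * ((y :: l'').map f).prod =
            (((x.1 * φ r * y.1, y.2) :: l'').map f).prod := by
          rw [hfx, List.map_cons, List.map_cons, List.prod_cons, List.prod_cons]
          simp only [hf, map_mul]
          group
        rw [e1]
        refine ih _ ?_ _ rfl
        rw [← hlen]
        simp only [List.length_cons]
        omega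

/-- **Main theorem**, for abstract amalgams. -/
theorem vrc_of_isAmalg (H : IsAmalg φ ψ inP inQ) (HP : VRC P) (HQ : VRC Q)
    (hφ : Function.Injective φ) (hψ : Function.Injective ψ)
    (hR : ∃ r₀ : R, (Subgroup.zpowers r₀).FiniteIndex) : VRC G := by
  intro g
  obtain ⟨r₀, hr₀⟩ := hR
  obtain ⟨l, rfl⟩ := exists_word H g
  exact word_isVR H HP HQ hφ hψ r₀ hr₀ _ l rfl

/-- the amalgamated free product -/
abbrev Amalgam (φ : R →* P) (ψ : R →* Q) : Type (max u v) :=
  Monoid.Coprod P Q ⧸ Subgroup.normalClosure
    (Set.range fun r : R => (Monoid.Coprod.inl (φ r) : Monoid.Coprod P Q) *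
      (Monoid.Coprod.inr (ψ r))⁻¹)

theorem isAmalg (φ : R →* P) (ψ : R →* Q) :
    IsAmalg φ ψ
      ((QuotientGroup.mk' (Subgroup.normalClosure
        (Set.range fun r : R => (Monoid.Coprod.inl (φ r) : Monoid.Coprod P Q) *
          (Monoid.Coprod.inr (ψ r))⁻¹))).comp Monoid.Coprod.inl)
      ((QuotientGroup.mk' (Subgroup.normalClosure
        (Set.range fun r : R => (Monoid.Coprod.inl (φ r) : Monoid.Coprod P Q) *
          (Monoid.Coprod.inr (ψ r))⁻¹))).comp Monoid.Coprod.inr) where
  comm r := by
    show QuotientGroup.mk' _ _ = QuotientGroup.mk' _ _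
    rw [QuotientGroup.mk'_eq_mk']
    refine ⟨(Monoid.Coprod.inl (φ r))⁻¹ * Monoid.Coprod.inr (ψ r), ?_, by group⟩
    have h1 : (Monoid.Coprod.inl (φ r) : Monoid.Coprod P Q) * (Monoid.Coprod.inr (ψ r))⁻¹ ∈
        Subgroup.normalClosure
        (Set.range fun r : R => (Monoid.Coprod.inl (φ r) : Monoid.Coprod P Q) *
          (Monoid.Coprod.inr (ψ r))⁻¹) := Subgroup.subset_normalClosure ⟨r, rfl⟩
    have h2 := (Subgroup.normalClosure_normal (s :=
        (Set.range fun r : R => (Monoid.Coprod.inl (φ r) : Monoid.Coprod P Q) *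
          (Monoid.Coprod.inr (ψ r))⁻¹))).conj_mem _ (Subgroup.inv_mem _ h1)
          ((Monoid.Coprod.inl (φ r))⁻¹)
    convert h2 using 1
    group
  gen S hP hQ := by
    rw [eq_top_iff]
    intro g _
    obtain ⟨x, rfl⟩ := QuotientGroup.mk'_surjective _ g
    induction x using Monoid.Coprod.induction_on with
    | inl p => exact hP p
    | inr q => exact hQ q
    | mul x y hx hy =>
      rw [map_mul]
      exact S.mul_mem (hx trivial) (hy trivial)
  lift T a b hab := by
    have h1 : Subgroup.normalClosure
        (Set.range fun r : R => (Monoid.Coprod.inl (φ r) : Monoid.Coprod P Q) *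
          (Monoid.Coprod.inr (ψ r))⁻¹) ≤ (Monoid.Coprod.lift a b).ker := by
      apply Subgroup.normalClosure_le_normal
      rintro _ ⟨r, rfl⟩
      show Monoid.Coprod.lift a b _ = 1
      rw [map_mul, map_inv, Monoid.Coprod.lift_apply_inl, Monoid.Coprod.lift_apply_inr, hab,
        mul_inv_cancel]
    refine ⟨QuotientGroup.lift _ (Monoid.Coprod.lift a b) h1, ?_, ?_⟩
    · intro p
      show QuotientGroup.lift _ (Monoid.Coprod.lift a b) h1 (QuotientGroup.mk' _ _) = _
      exact (QuotientGroup.lift_mk' _ _ _).trans (Monoid.Coprod.lift_apply_inl _ _ _)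
    · intro q
      show QuotientGroup.lift _ (Monoid.Coprod.lift a b) h1 (QuotientGroup.mk' _ _) = _
      exact (QuotientGroup.lift_mk' _ _ _).trans (Monoid.Coprod.lift_apply_inr _ _ _)

/-- **Main theorem.** -/
theorem main (φ : R →* P) (ψ : R →* Q) (HP : VRC P) (HQ : VRC Q)
    (hφ : Function.Injective φ) (hψ : Function.Injective ψ)
    (hR : ∃ r₀ : R, (Subgroup.zpowers r₀).FiniteIndex) : VRC (Amalgam φ ψ) :=
  vrc_of_isAmalg (isAmalg φ ψ) HP HQ hφ hψ hR

end Pool.Agent.Y968.VR
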