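import Pool.Agent.Y968.VR.Glue

/-!
# The product construction: elliptic elements
-/

set_option autoImplicit false

namespace Pool.Agent.Y968.VR

universe u v w x

section graph

variable {P : Type u} [Group P]

/-- the graph of `k • l` on `A` -/
def graph (A : Subgroup P) (l : P → ℤ) (hl : ∀ a ∈ A, ∀ b ∈ A, l (a * b) = l a + l b) (k : ℤ) :
    Subgroup (P × Z) where
  carrier := {x | x.1 ∈ A ∧ Multiplicative.toAdd x.2 = k * l x.1}
  mul_mem' := by
    rintro ⟨a, n⟩ ⟨b, m⟩ ⟨ha, hn⟩ ⟨hb, hm⟩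
    refine ⟨A.mul_mem ha hb, ?_⟩
    simp only [Prod.mk_mul_mk, toAdd_mul] at *
    rw [hl a ha b hb, hn, hm]; ring
  one_mem' := by
    refine ⟨A.one_mem, ?_⟩
    have := hl 1 A.one_mem 1 A.one_mem
    simp only [mul_one] at this
    have h1 : l 1 = 0 := by omega
    simp [h1]
  inv_mem' := by
    rintro ⟨a, n⟩ ⟨ha, hn⟩
    refine ⟨A.inv_mem ha, ?_⟩
    have := hl 1 A.one_mem 1 A.one_mem
    simp only [mul_one] at this
    have h1 : l 1 = 0 := by omega
    have h2 := hl a ha a⁻¹ (A.inv_mem ha)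
    rw [mul_inv_cancel, h1] at h2
    simp only [Prod.inv_mk, toAdd_inv] at *
    rw [hn]
    have : l a⁻¹ = - l a := by omega
    rw [this]; ring

theorem mem_graph {A : Subgroup P} {l : P → ℤ} {hl : ∀ a ∈ A, ∀ b ∈ A, l (a * b) = l a + l b}
    {k : ℤ} {x : P × Z} : x ∈ graph A l hl k ↔ x.1 ∈ A ∧ Multiplicative.toAdd x.2 = k * l x.1 :=
  Iff.rfl

end graph

variable {P : Type u} {Q : Type v} {R : Type w} {G : Type x} [Group P] [Group Q]
    [Group R] [Group G] {φ : R →* P} {ψ : R →* Q} {inP : P →* G} {inQ : Q →* G}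

section side

variable (φ) (A : Subgroup P) (l : P → ℤ) (hl : ∀ a ∈ A, ∀ b ∈ A, l (a * b) = l a + l b)
  {Y : Type v} (κ : Y → ℤ)

/-- the set on which `P` acts -/
abbrev TT : Type (max u v) := Σ y : Y, (P × Z) ⧸ graph A l hl (κ y)

/-- the action -/
noncomputable def act : P × Z →* Equiv.Perm (TT A l hl κ) := MulAction.toPermHom _ _

/-- a point -/
def pt (y : Y) (p : P) (n : Z) : TT A l hl κ := ⟨y, ((p, n) : P × Z)⟩

theorem act_pt (y : Y) (p : P) (n : Z) (g : P) (m : Z) :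
    act A l hl κ (g, m) (pt A l hl κ y p n) = pt A l hl κ y (g * p) (m * n) := rfl

theorem pt_surj (x : TT A l hl κ) : ∃ y p n, x = pt A l hl κ y p n := by
  obtain ⟨y, c⟩ := x
  obtain ⟨⟨p, n⟩, rfl⟩ := QuotientGroup.mk_surjective c
  exact ⟨y, p, n, rfl⟩

theorem pt_eq_iff {y y' : Y} {p p' : P} {n n' : Z} :
    pt A l hl κ y p n = pt A l hl κ y' p' n' ↔
      y = y' ∧ p⁻¹ * p' ∈ A ∧
        Multiplicative.toAdd n' = Multiplicative.toAdd n + κ y * l (p⁻¹ * p') := by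
  constructor
  · intro h
    have h1 : y = y' := congrArg Sigma.fst h
    subst h1
    have h2 : (((p, n) : P × Z) : (P × Z) ⧸ graph A l hl (κ y)) = ((p', n') : P × Z) := by
      have := (Sigma.mk.inj_iff.1 h).2
      exact eq_of_heq this
    rw [QuotientGroup.eq] at h2
    obtain ⟨h3, h4⟩ := h2
    simp only [Prod.inv_mk, Prod.mk_mul_mk, toAdd_mul, toAdd_inv] at h3 h4
    exact ⟨rfl, h3, by omega⟩
  · rintro ⟨rfl, h3, h4⟩
    have h2 : (((p, n) : P × Z) : (P × Z) ⧸ graph A l hl (κ y)) = ((p', n') : P × Z) := by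
      rw [QuotientGroup.eq]
      refine ⟨h3, ?_⟩
      simp only [Prod.inv_mk, Prod.mk_mul_mk, toAdd_mul, toAdd_inv]
      omega
    show Sigma.mk y _ = Sigma.mk y _
    rw [h2]

variable {X : Type u} (c : P → X) (s : X → P) (hs : ∀ x, c (s x) = x)
  (hc : ∀ p p', c p = c p' ↔ ∃ r, ∃ a ∈ A, p' = φ r * p * a)

include hs hc in
theorem side_cov (x : TT A l hl κ) :
    ∃ (i : X × Y) (r : R) (n : Z), x = act A l hl κ (φ r, n) (pt A l hl κ i.2 (s i.1) 1) := by
  obtain ⟨y, p, n, rfl⟩ := pt_surj A l hl κ x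
  have h1 : c (s (c p)) = c p := hs _
  obtain ⟨r, a, ha, h2⟩ := (hc _ _).1 h1
  refine ⟨(c p, y), r, Multiplicative.ofAdd (Multiplicative.toAdd n + κ y * l a⁻¹), ?_⟩
  rw [act_pt, pt_eq_iff]
  have e1 : p⁻¹ * (φ r * s (c p)) = a⁻¹ := by
    nth_rewrite 1 [h2]
    group
  rw [e1]
  refine ⟨rfl, A.inv_mem ha, ?_⟩
  simp [mul_comm]

include hs hc in
theorem side_uniq (i j : X × Y) (r : R) (n : Z) (r' : R) (n' : Z)
    (h : act A l hl κ (φ r, n) (pt A l hl κ i.2 (s i.1) 1) =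
      act A l hl κ (φ r', n') (pt A l hl κ j.2 (s j.1) 1)) : i = j := by
  rw [act_pt, act_pt, pt_eq_iff] at h
  obtain ⟨h1, h2, -⟩ := h
  have h3 : c (s i.1) = c (s j.1) := by
    rw [hc]
    refine ⟨r'⁻¹ * r, (φ r * s i.1)⁻¹ * (φ r' * s j.1), h2, ?_⟩
    rw [map_mul, map_inv]
    group
  rw [hs, hs] at h3
  exact Prod.ext h3 h1

theorem side_stab (hA : A.Normal) (i : X × Y) (r : R) (n : Z) :
    act A l hl κ (φ r, n) (pt A l hl κ i.2 (s i.1) 1) = pt A l hl κ i.2 (s i.1) 1 ↔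
      φ r ∈ A ∧ Multiplicative.toAdd n = κ i.2 * l ((s i.1)⁻¹ * φ r * s i.1) := by
  have e0 : (s i.1)⁻¹ * φ r * s i.1 ∈ A ↔ φ r ∈ A := by
    constructor
    · intro h
      have := hA.conj_mem _ h (s i.1)
      convert this using 1
      group
    · intro h
      have := hA.conj_mem _ h (s i.1)⁻¹
      convert this using 1
      group
  rw [act_pt, eq_comm, pt_eq_iff]
  constructor
  · rintro ⟨-, h1, h2⟩
    have e1 : (s i.1)⁻¹ * (φ r * s i.1) = (s i.1)⁻¹ * φ r * s i.1 := by group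
    rw [e1] at h1 h2
    refine ⟨e0.1 h1, ?_⟩
    simpa using h2
  · rintro ⟨h1, h2⟩
    have e1 : (s i.1)⁻¹ * (φ r * s i.1) = (s i.1)⁻¹ * φ r * s i.1 := by group
    rw [e1]
    refine ⟨rfl, e0.2 h1, ?_⟩
    simpa using h2

end side

/-- **The product construction.** -/
theorem product (H : IsAmalg φ ψ inP inQ) (A : Subgroup P) [hA : A.Normal] [hAf : A.FiniteIndex]
    (B : Subgroup Q) [hB : B.Normal]
    (hAB : ∀ r, φ r ∈ A ↔ ψ r ∈ B)
    (l : P → ℤ) (hl : ∀ a ∈ A, ∀ b ∈ A, l (a * b) = l a + l b)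
    (l' : Q → ℤ) (hl' : ∀ a ∈ B, ∀ b ∈ B, l' (a * b) = l' a + l' b)
    {X : Type u} (c : P → X) (s : X → P) (hs : ∀ x, c (s x) = x)
    (hc : ∀ p p', c p = c p' ↔ ∃ r, ∃ a ∈ A, p' = φ r * p * a)
    {Y : Type v} [Finite Y] (c' : Q → Y) (s' : Y → Q) (hs' : ∀ x, c' (s' x) = x)
    (hc' : ∀ p p', c' p = c' p' ↔ ∃ r, ∃ a ∈ B, p' = ψ r * p * a)
    (κ : Y → ℤ) (κ' : X → ℤ)
    (hk : ∀ x y r, φ r ∈ A →
      κ y * l ((s x)⁻¹ * φ r * s x) = κ' x * l' ((s' y)⁻¹ * ψ r * s' y))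
    (y : Y) (hy : κ y ≠ 0) (p : P) (m : ℕ) (hp : p ^ m ∈ A) (hlp : l (p ^ m) ≠ 0) :
    IsVR (Subgroup.zpowers (inP p)) := by
  obtain ⟨Φ, θ, -, -, hΦ, -, hcomm⟩ := master (I := X × Y) H (act A l hl κ)
    (act (Y := X) B l' hl' κ')
    (fun i => pt A l hl κ i.2 (s i.1) 1) (fun i => pt B l' hl' κ' i.1 (s' i.2) 1)
    (side_cov φ A l hl κ c s hs hc)
    (fun x => by
      obtain ⟨i, r, n, h⟩ := side_cov ψ B l' hl' κ' c' s' hs' hc' x
      exact ⟨i.swap, r, n, h⟩)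
    (side_uniq φ A l hl κ c s hs hc)
    (fun i j r n r' n' h => by
      have := side_uniq ψ B l' hl' κ' c' s' hs' hc' i.swap j.swap r n r' n' h
      exact Prod.swap_injective this)
    (fun i r n => by
      have e2 := side_stab ψ B l' hl' κ' s' hB i.swap r n
      rw [← hAB r] at e2
      refine (side_stab φ A l hl κ s hA i r n).trans (Iff.trans ?_ e2.symm)
      constructor
      · rintro ⟨h1, h2⟩
        exact ⟨h1, by rw [h2, hk _ _ _ h1]; rfl⟩
      · rintro ⟨h1, h2⟩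
        exact ⟨h1, by rw [h2, hk _ _ _ h1]; rfl⟩)
  -- the shift
  have hτ : ∀ (k : ℤ) (y : Y) (p : P) (n : Z),
      ((act A l hl κ (1, Multiplicative.ofAdd 1)) ^ k) (pt A l hl κ y p n) =
        pt A l hl κ y p (Multiplicative.ofAdd k * n) := by
    intro k y p n
    rw [← map_zpow]
    have : ((1, Multiplicative.ofAdd 1) : P × Z) ^ k = (1, Multiplicative.ofAdd k) := by
      ext
      · simp
      · simp [← ofAdd_zsmul]
    rw [this, act_pt, one_mul]
  have hfin : Finite (P ⧸ A) := Subgroup.finite_quotient_of_finiteIndex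
  -- representatives
  have hrep : ∀ z : TT A l hl κ, ∃ (w : Y × P), ∃ n : Z, z = pt A l hl κ w.1 w.2 n := by
    intro z
    obtain ⟨y, p, n, h⟩ := pt_surj A l hl κ z
    exact ⟨(y, p), n, h⟩
  choose w n hw using hrep
  refine isVR_of_action (Ω := Y × (P ⧸ A)) Φ (act A l hl κ (1, Multiplicative.ofAdd 1))
    (fun z => ((w z).1, ((w z).2 : P ⧸ A))) ?_ ?_ (pt A l hl κ y 1 1) ?_ (inP p) m
    (κ y * l (p ^ m) * (-1)) ?_ ?_
  · intro z z' h
    have h1 : (w z).1 = (w z').1 := (Prod.ext_iff.1 h).1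
    have h2 : (((w z).2 : P) : P ⧸ A) = (w z').2 := (Prod.ext_iff.1 h).2
    rw [QuotientGroup.eq] at h2
    refine ⟨Multiplicative.toAdd (n z') - Multiplicative.toAdd (n z) -
      κ (w z).1 * l ((w z).2⁻¹ * (w z').2), ?_⟩
    have e := hτ (Multiplicative.toAdd (n z') - Multiplicative.toAdd (n z) -
      κ (w z).1 * l ((w z).2⁻¹ * (w z').2)) (w z).1 (w z).2 (n z)
    rw [← hw z] at e
    rw [e]
    conv_lhs => rw [hw z']
    rw [eq_comm, pt_eq_iff]
    refine ⟨h1, h2, ?_⟩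
    simp only [toAdd_mul, toAdd_ofAdd]
    ring
  · intro g t
    exact hcomm g _ t
  · intro k hk
    rw [hτ, eq_comm, pt_eq_iff] at hk
    obtain ⟨-, -, h3⟩ := hk
    have h1 : l 1 = 0 := by
      have := hl 1 A.one_mem 1 A.one_mem
      simp only [mul_one] at this
      omega
    simp [h1] at h3
    exact h3
  · exact mul_ne_zero (mul_ne_zero hy hlp) (by norm_num)
  · rw [hτ, ← map_pow, hΦ, act_pt, pt_eq_iff]
    refine ⟨rfl, ?_, ?_⟩
    · simpa using hp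
    · have h1 : l 1 = 0 := by
        have := hl 1 A.one_mem 1 A.one_mem
        simp only [mul_one] at this
        omega
      have h2 := hl (p ^ m) hp (p ^ m)⁻¹ (A.inv_mem hp)
      rw [mul_inv_cancel, h1] at h2
      have h3 : l (p ^ m)⁻¹ = - l (p ^ m) := by omega
      simp only [mul_one, toAdd_ofAdd, toAdd_one, zero_add]
      rw [h3]; ring

end Pool.Agent.Y968.VR
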