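import Pool.Agent.Y968.VR.Product

/-!
# Subgroups of finite index of groups with (VRC)
-/

set_option autoImplicit false

namespace Pool.Agent.Y968.VR

universe u v w x

variable {G : Type u} [Group G]

/-- preimages of subgroups of finite index -/
theorem fi_comap {G' : Type v} [Group G'] (f : G' →* G) (M : Subgroup G) [hM : M.FiniteIndex] :
    (M.comap f).FiniteIndex := by
  have : Finite (G ⧸ M) := Subgroup.finite_quotient_of_finiteIndex
  refine finiteIndex_of_map _ (fun k => (f k : G ⧸ M)) fun g g' h => ?_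
  rw [QuotientGroup.eq] at h
  rw [Subgroup.mem_comap, map_mul, map_inv]
  exact h

/-- subgroups of finite index from a retraction -/
theorem fi_of_retraction (y : G) (K : Subgroup G) [hK : K.FiniteIndex]
    (ρ : K →* Subgroup.zpowers y) (n : ℕ) (hn : n ≠ 0) :
    (((Subgroup.zpowers (y ^ n)).comap ((Subgroup.zpowers y).subtype.comp ρ)).map
      K.subtype).FiniteIndex := by
  classical
  have hex : ∀ k : K, ∃ e : ℤ, y ^ e = (ρ k : G) := fun k => by
    obtain ⟨e, he⟩ := (ρ k).2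
    exact ⟨e, he⟩
  choose e he using hex
  have : NeZero n := ⟨hn⟩
  refine finiteIndex_of_map' K _ ?_ (fun k => ((e k : ℤ) : ZMod n)) ?_
  · rintro _ ⟨k, -, rfl⟩
    exact k.2
  · intro k k' h
    rw [ZMod.intCast_eq_intCast_iff_dvd_sub] at h
    obtain ⟨j, hj⟩ := h
    refine ⟨k⁻¹ * k', ?_, rfl⟩
    show ((ρ (k⁻¹ * k') : Subgroup.zpowers y) : G) ∈ Subgroup.zpowers (y ^ n)
    rw [map_mul, map_inv, Subgroup.coe_mul, Subgroup.coe_inv, ← he, ← he, ← zpow_neg, ← zpow_add]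
    refine ⟨j, ?_⟩
    show (y ^ n) ^ j = _
    rw [← zpow_natCast, ← zpow_mul, ← hj]
    congr 1
    ring

/-- groups with (VRC) are residually finite -/
theorem rf (H : VRC G) (y : G) (hy : y ≠ 1) : ∃ N : Subgroup G, N.FiniteIndex ∧ y ∉ N := by
  obtain ⟨K, hK, hyK, ρ, hρ⟩ := H y
  obtain ⟨n, hn, hyn⟩ : ∃ n : ℕ, n ≠ 0 ∧ y ∉ Subgroup.zpowers (y ^ n) := by
    by_cases h : ∃ n : ℕ, n ≠ 0 ∧ y ^ n = 1
    · obtain ⟨n, hn, h1⟩ := h
      refine ⟨n, hn, ?_⟩
      rw [h1, Subgroup.zpowers_one_eq_bot, Subgroup.mem_bot]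
      exact hy
    · push Not at h
      refine ⟨2, by norm_num, ?_⟩
      rintro ⟨j, hj⟩
      change (y ^ 2) ^ j = y at hj
      have h1 : y ^ (2 * j - 1) = 1 := by
        rw [zpow_sub, zpow_mul, zpow_one, mul_inv_eq_one]
        exact_mod_cast hj
      have h2 : (2 * j - 1).natAbs ≠ 0 := by omega
      have h3 : y ^ (2 * j - 1).natAbs = 1 := by
        rcases Int.natAbs_eq (2 * j - 1) with h4 | h4
        · rw [h4, zpow_natCast] at h1; exact h1
        · rw [h4, zpow_neg, zpow_natCast, inv_eq_one] at h1; exact h1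
      exact h _ h2 h3
  refine ⟨_, fi_of_retraction y K ρ n hn, ?_⟩
  rintro ⟨k, hk, hky⟩
  apply hyn
  have h1 : k = Subgroup.inclusion hyK ⟨y, Subgroup.mem_zpowers y⟩ := Subtype.ext hky
  have h2 : ((ρ k : Subgroup.zpowers y) : G) ∈ Subgroup.zpowers (y ^ n) := hk
  rw [h1, hρ] at h2
  exact h2

/-- a retraction, as a function -/
theorem exists_exponent (g : G) (H : IsVR (Subgroup.zpowers g)) (hg : ∀ n : ℤ, g ^ n = 1 → n = 0) :
    ∃ (K : Subgroup G) (l : G → ℤ), K.FiniteIndex ∧ g ∈ K ∧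
      (∀ a ∈ K, ∀ b ∈ K, l (a * b) = l a + l b) ∧ l g = 1 := by
  classical
  obtain ⟨K, hK, hyK, ρ, hρ⟩ := H
  have hex : ∀ x : G, ∃ e : ℤ, ∀ h : x ∈ K, g ^ e = (ρ ⟨x, h⟩ : G) := fun x => by
    by_cases h : x ∈ K
    · obtain ⟨e, he⟩ := (ρ ⟨x, h⟩).2
      exact ⟨e, fun _ => he⟩
    · exact ⟨0, fun h' => absurd h' h⟩
  choose e he using hex
  have hu : ∀ m n : ℤ, g ^ m = g ^ n → m = n := by
    intro m n h
    have : g ^ (m - n) = 1 := by rw [zpow_sub, h, mul_inv_cancel]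
    have := hg _ this
    omega
  have hgK : g ∈ K := hyK (Subgroup.mem_zpowers g)
  refine ⟨K, e, hK, hgK, ?_, ?_⟩
  · intro a ha b hb
    apply hu
    rw [he _ (K.mul_mem ha hb), zpow_add, he _ ha, he _ hb, ← Subgroup.coe_mul, ← map_mul]
    rfl
  · apply hu
    rw [he _ hgK, zpow_one]
    have := hρ ⟨g, Subgroup.mem_zpowers g⟩
    exact congrArg Subtype.val this

/-- cyclic subgroups are separable -/
theorem sep_cyclic (H : VRC G) (g y : G) (hy : y ∉ Subgroup.zpowers g) :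
    ∃ N : Subgroup G, N.FiniteIndex ∧ ∀ i : ℤ, ∀ n ∈ N, g ^ i * n ≠ y := by
  obtain ⟨K, hK, hgK, ρ, hρ⟩ := H g
  have hg : ∀ i : ℤ, g ^ i ∈ K := fun i => hgK ⟨i, rfl⟩
  have hρg : ∀ i : ℤ, ((ρ ⟨g ^ i, hg i⟩ : Subgroup.zpowers g) : G) = g ^ i := fun i => by
    have := hρ ⟨g ^ i, ⟨i, rfl⟩⟩
    exact congrArg Subtype.val this
  by_cases hyK : y ∈ K
  · set z : G := ((ρ ⟨y, hyK⟩ : Subgroup.zpowers g) : G)⁻¹ * y with hz
    have hz1 : z ≠ 1 := by
      intro h
      rw [hz, inv_mul_eq_one] at h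
      apply hy
      rw [← h]
      exact (ρ ⟨y, hyK⟩).2
    obtain ⟨M, hM, hzM⟩ := rf H z hz1
    -- elements `k` of `K` with `k ∈ M` and `ρ k ∈ M`
    let f : K →* G := (Subgroup.zpowers g).subtype.comp ρ
    have h1 : (M.comap f).FiniteIndex := fi_comap f M
    have h2 : (M.comap K.subtype).FiniteIndex := fi_comap K.subtype M
    have h3 : ((M.comap f ⊓ M.comap K.subtype).map K.subtype).FiniteIndex := by
      have h4 : (M.comap f ⊓ M.comap K.subtype).FiniteIndex := inferInstance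
      have h5 : Finite (K ⧸ (M.comap f ⊓ M.comap K.subtype)) :=
        Subgroup.finite_quotient_of_finiteIndex
      refine finiteIndex_of_map' K _ ?_
        (fun k => (k : K ⧸ (M.comap f ⊓ M.comap K.subtype))) ?_
      · rintro _ ⟨k, -, rfl⟩
        exact k.2
      · intro k k' h
        rw [QuotientGroup.eq] at h
        exact ⟨k⁻¹ * k', h, rfl⟩
    refine ⟨_, h3, ?_⟩
    rintro i _ ⟨k, ⟨hk1, hk2⟩, rfl⟩ h
    apply hzM
    have e1 : (⟨y, hyK⟩ : K) = ⟨g ^ i, hg i⟩ * k := Subtype.ext h.symm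
    rw [hz, e1, map_mul, Subgroup.coe_mul, hρg, ← h]
    have e2 : (g ^ i * ((ρ k : Subgroup.zpowers g) : G))⁻¹ * (g ^ i * K.subtype k) =
        ((ρ k : Subgroup.zpowers g) : G)⁻¹ * k := by
      show (g ^ i * ((ρ k : Subgroup.zpowers g) : G))⁻¹ * (g ^ i * (k : G)) = _
      group
    rw [e2]
    exact M.mul_mem (M.inv_mem hk1) hk2
  · refine ⟨K, hK, ?_⟩
    rintro i n hn rfl
    exact hyK (K.mul_mem (hg i) hn)

/-- finite intersections -/
theorem exists_normal {ι : Type*} [Finite ι] (N : ι → Subgroup G) (hN : ∀ i, (N i).FiniteIndex) :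
    ∃ M : Subgroup G, M.Normal ∧ M.FiniteIndex ∧ ∀ i, M ≤ N i := by
  have h1 : (⨅ i, N i).FiniteIndex := Subgroup.finiteIndex_iInf hN
  exact ⟨(⨅ i, N i).normalCore, Subgroup.normalCore_normal _, Subgroup.finiteIndex_normalCore _,
    fun i => (Subgroup.normalCore_le _).trans (iInf_le _ i)⟩

variable {P : Type u} [Group P] {R : Type w} [Group R]

/-- virtually cyclic subgroups are separable -/
theorem sep (H : VRC P) (φ : R →* P) (r₀ : R) (hr₀ : (Subgroup.zpowers r₀).FiniteIndex)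
    (y : P) (hy : ∀ r, φ r ≠ y) :
    ∃ N : Subgroup P, N.FiniteIndex ∧ ∀ r, ∀ n ∈ N, φ r * n ≠ y := by
  have h1 : Finite (R ⧸ Subgroup.zpowers r₀) := Subgroup.finite_quotient_of_finiteIndex
  have h2 : ∀ j : R ⧸ Subgroup.zpowers r₀, (φ j.out)⁻¹ * y ∉ Subgroup.zpowers (φ r₀) := by
    rintro j ⟨i, hi⟩
    change φ r₀ ^ i = _ at hi
    apply hy (j.out * r₀ ^ i)
    rw [map_mul, map_zpow, hi]
    group
  choose N hN hN' using fun j => sep_cyclic H _ _ (h2 j)
  obtain ⟨M, -, hM, hMN⟩ := exists_normal N hN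
  refine ⟨M, hM, ?_⟩
  intro r n hn h
  have h3 : ((r : R ⧸ Subgroup.zpowers r₀).out)⁻¹ * r ∈ Subgroup.zpowers r₀ := by
    rw [← QuotientGroup.eq, QuotientGroup.out_eq']
  obtain ⟨i, hi⟩ := h3
  change r₀ ^ i = _ at hi
  apply hN' (r : R ⧸ Subgroup.zpowers r₀) i n (hMN _ hn)
  rw [← h, ← map_zpow, hi, map_mul, map_inv]
  group

end Pool.Agent.Y968.VR
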