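import Pool.Agent.Y968.VR.Side

/-!
# Adapted subgroups of finite index
-/

set_option autoImplicit false

namespace Pool.Agent.Y968.VR

universe u v w x

variable {P : Type u} [Group P] {Q : Type v} [Group Q] {R : Type w} [Group R]

/-- The subgroups `A k` of one of the groups, `R` infinite. -/
theorem pside (H : VRC P) (φ : R →* P) (hφ : Function.Injective φ) (r₀ : R)
    (hr₀ : (Subgroup.zpowers r₀).FiniteIndex) (hinf : ∀ n : ℤ, r₀ ^ n = 1 → n = 0)
    (N₀ : Subgroup P) [hN₀ : N₀.FiniteIndex] :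
    ∃ (d : R) (A : ℕ → Subgroup P) (l : P → ℤ), (∀ n : ℤ, d ^ n = 1 → n = 0) ∧
      (Subgroup.zpowers d).FiniteIndex ∧
      (∀ k, k ≠ 0 → (A k).Normal ∧ (A k).FiniteIndex ∧ A k ≤ N₀ ∧
        (∀ a ∈ A k, ∀ b ∈ A k, l (a * b) = l a + l b) ∧
        (∀ r, φ r ∈ A k ↔ r ∈ Subgroup.zpowers (d ^ k))) ∧
      ∀ k : ℕ, k ≠ 0 → l (φ (d ^ k)) ≠ 0 := by
  classical
  -- the first function
  obtain ⟨K, l, hK, hrK, hl, hlr⟩ := exists_exponent (φ r₀) (H _) (fun n hn => by
    rw [← map_zpow] at hn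
    exact hinf n (hφ (by rw [hn, map_one])))
  have hl1 : l 1 = 0 := by
    have := hl 1 K.one_mem 1 K.one_mem
    simp only [mul_one] at this
    omega
  have hlinv : ∀ a ∈ K, l a⁻¹ = - l a := by
    intro a ha
    have := hl a ha a⁻¹ (K.inv_mem ha)
    rw [mul_inv_cancel, hl1] at this
    omega
  have hlpow : ∀ a ∈ K, ∀ n : ℕ, l (a ^ n) = n * l a := by
    intro a ha n
    induction n with
    | zero => simp [hl1]
    | succ n ih => rw [pow_succ, hl _ (K.pow_mem ha n) _ ha, ih]; push_cast; ring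
  have hlzpow : ∀ a ∈ K, ∀ n : ℤ, l (a ^ n) = n * l a := by
    intro a ha n
    obtain ⟨n, rfl | rfl⟩ := n.eq_nat_or_neg
    · rw [zpow_natCast, hlpow a ha]
    · rw [zpow_neg, zpow_natCast, hlinv _ (K.pow_mem ha n), hlpow a ha]; ring
  -- the kernel is finite
  let E : Type w := {r : R // φ r ∈ K ∧ l (φ r) = 0 ∧ r ≠ 1}
  have hfin1 : Finite (R ⧸ Subgroup.zpowers r₀) := Subgroup.finite_quotient_of_finiteIndex
  have hEfin : Finite E := by
    refine Finite.of_injective (fun e : E => (e.1 : R ⧸ Subgroup.zpowers r₀)) ?_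
    rintro ⟨r, hr1, hr2, hr3⟩ ⟨r', hr1', hr2', hr3'⟩ h
    change (r : R ⧸ Subgroup.zpowers r₀) = r' at h
    rw [QuotientGroup.eq] at h
    obtain ⟨i, hi⟩ := h
    change r₀ ^ i = _ at hi
    have h1 : l (φ (r⁻¹ * r')) = 0 := by
      rw [map_mul, map_inv, hl _ (K.inv_mem hr1) _ hr1', hlinv _ hr1, hr2, hr2']
      rfl
    rw [← hi, map_zpow, hlzpow _ hrK, hlr, mul_one] at h1
    rw [h1, zpow_zero] at hi
    exact Subtype.ext (by rw [← mul_right_inj r⁻¹, ← hi, inv_mul_cancel])
  have hE : ∀ e : E, ∃ N : Subgroup P, N.FiniteIndex ∧ φ e.1 ∉ N := fun e =>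
    rf H _ (fun h => e.2.2.2 (hφ (by rw [h, map_one])))
  choose N hN hN' using hE
  obtain ⟨A₀, hA₀, hA₀f, hA₀le⟩ := exists_normal
    (fun i : Option (Option E) => match i with
      | none => K
      | some none => N₀
      | some (some e) => N e)
    (fun i => match i with
      | none => hK
      | some none => hN₀
      | some (some e) => hN e)
  have hAK : A₀ ≤ K := hA₀le none
  have hAN : A₀ ≤ N₀ := hA₀le (some none)
  have hAE : ∀ e, A₀ ≤ N e := fun e => hA₀le (some (some e))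
  -- the preimage is infinite cyclic
  have hD : ∃ d : R, A₀.comap φ = Subgroup.zpowers d := by
    let f : A₀.comap φ →* Z :=
      { toFun := fun r => Multiplicative.ofAdd (l (φ r))
        map_one' := by simp [hl1]
        map_mul' := fun a b => by
          rw [← ofAdd_add, ← hl _ (hAK a.2) _ (hAK b.2), ← map_mul]; rfl }
    have hf : Function.Injective f := by
      rw [injective_iff_map_eq_one]
      rintro ⟨r, hr⟩ h
      have h1 : l (φ r) = 0 := h
      by_contra hcon
      have h2 : r ≠ 1 := fun h => hcon (Subtype.ext h)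
      exact hN' ⟨r, hAK hr, h1, h2⟩ (hAE _ hr)
    have hcyc : IsCyclic (A₀.comap φ) := isCyclic_of_injective f hf
    obtain ⟨⟨d, hd⟩, h⟩ := hcyc.exists_generator
    refine ⟨d, le_antisymm ?_ ?_⟩
    · intro r hr
      obtain ⟨n, hn⟩ := h ⟨r, hr⟩
      exact ⟨n, congrArg Subtype.val hn⟩
    · rw [Subgroup.zpowers_le]; exact hd
  obtain ⟨d, hd⟩ := hD
  have hdmem : ∀ r, φ r ∈ A₀ ↔ r ∈ Subgroup.zpowers d := fun r => by
    rw [← hd, Subgroup.mem_comap]
  have hdA : φ d ∈ A₀ := (hdmem d).2 (Subgroup.mem_zpowers d)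
  have hdfi : (Subgroup.zpowers d).FiniteIndex := by
    rw [← hd]; exact fi_comap φ A₀
  -- a power of `r₀` is a power of `d`
  have hdl : l (φ d) ≠ 0 := by
    intro h
    obtain ⟨n, hn0, -, hn⟩ := Subgroup.exists_pow_mem_of_index_ne_zero
      (H := Subgroup.zpowers d) hdfi.index_ne_zero r₀
    obtain ⟨j, hj⟩ := hn
    change d ^ j = _ at hj
    have h1 : l (φ (r₀ ^ n)) = 0 := by
      rw [← hj, map_zpow, hlzpow _ (hAK hdA), h, mul_zero]
    rw [map_pow, hlpow _ hrK, hlr, mul_one] at h1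
    omega
  have hdinf : ∀ n : ℤ, d ^ n = 1 → n = 0 := by
    intro n hn
    have h1 : l (φ (d ^ n)) = 0 := by rw [hn, map_one, hl1]
    rw [map_zpow, hlzpow _ (hAK hdA)] at h1
    rcases mul_eq_zero.1 h1 with h | h
    · exact h
    · exact absurd h hdl
  -- the divisor
  let V : P → ℤ := fun g => l (g * φ d * g⁻¹)
  obtain ⟨D, hDV⟩ := Int.subgroup_cyclic (AddSubgroup.closure (Set.range V))
  have hDdvd : ∀ g, D ∣ V g := by
    intro g
    have h1 : V g ∈ AddSubgroup.closure (Set.range V) := AddSubgroup.subset_closure ⟨g, rfl⟩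
    rw [hDV, AddSubgroup.mem_closure_singleton] at h1
    obtain ⟨n, hn⟩ := h1
    exact ⟨n, by rw [← hn]; simp [mul_comm]⟩
  have hD0 : D ≠ 0 := by
    intro h
    have := hDdvd 1
    rw [h, zero_dvd_iff] at this
    apply hdl
    simpa [V] using this
  -- the subgroups
  let B : ℕ → Subgroup P := fun k =>
    { carrier := {a | a ∈ A₀ ∧ (k : ℤ) * D ∣ l a}
      mul_mem' := fun {a b} ha hb => ⟨A₀.mul_mem ha.1 hb.1, by
        rw [hl _ (hAK ha.1) _ (hAK hb.1)]; exact dvd_add ha.2 hb.2⟩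
      one_mem' := ⟨A₀.one_mem, by rw [hl1]; exact dvd_zero _⟩
      inv_mem' := fun {a} ha => ⟨A₀.inv_mem ha.1, by
        rw [hlinv _ (hAK ha.1)]; exact (dvd_neg).2 ha.2⟩ }
  have hBA : ∀ k, B k ≤ A₀ := fun k a ha => ha.1
  have hBfi : ∀ k : ℕ, k ≠ 0 → (B k).FiniteIndex := by
    intro k hk
    have hkD : ((k : ℤ) * D).natAbs ≠ 0 :=
      Int.natAbs_ne_zero.2 (mul_ne_zero (by exact_mod_cast hk) hD0)
    have : NeZero ((k : ℤ) * D).natAbs := ⟨hkD⟩
    refine finiteIndex_of_map' A₀ _ (hBA k) (fun a => ((l a : ℤ) : ZMod ((k : ℤ) * D).natAbs)) ?_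
    intro a a' h
    rw [ZMod.intCast_eq_intCast_iff_dvd_sub] at h
    refine ⟨A₀.mul_mem (A₀.inv_mem a.2) a'.2, ?_⟩
    rw [hl _ (K.inv_mem (hAK a.2)) _ (hAK a'.2), hlinv _ (hAK a.2)]
    have h2 := Int.natAbs_dvd.1 h
    rw [neg_add_eq_sub]
    exact h2
  refine ⟨d, fun k => (B k).normalCore, l, hdinf, hdfi, ?_, ?_⟩
  · intro k hk
    have hBk := hBfi k hk
    refine ⟨Subgroup.normalCore_normal _, Subgroup.finiteIndex_normalCore _,
      ((Subgroup.normalCore_le _).trans (hBA k)).trans hAN, ?_, ?_⟩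
    · intro a ha b hb
      exact hl _ (hAK (hBA k (Subgroup.normalCore_le _ ha))) _
        (hAK (hBA k (Subgroup.normalCore_le _ hb)))
    · intro r
      have hcoreiff : φ r ∈ (B k).normalCore ↔ ∀ g, g * φ r * g⁻¹ ∈ B k := Iff.rfl
      have hVt : ∀ (t : ℤ) g, l (g * φ (d ^ t) * g⁻¹) = t * V g := by
        intro t g
        have e1 : g * φ (d ^ t) * g⁻¹ = (g * φ d * g⁻¹) ^ t := by
          rw [map_zpow, conj_zpow]
        rw [e1, hlzpow _ (hAK (hA₀.conj_mem _ hdA g))]
      rw [hcoreiff]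
      constructor
      · intro h
        have h1 : φ r ∈ A₀ := by
          have := (h 1).1
          simpa using this
        obtain ⟨t, ht⟩ := (hdmem r).1 h1
        change d ^ t = r at ht
        -- `k D` divides `t v` for all `v` in the closure
        have h2 : ∀ v ∈ AddSubgroup.closure (Set.range V), (k : ℤ) * D ∣ t * v := by
          intro v hv
          induction hv using AddSubgroup.closure_induction with
          | mem v hv =>
            obtain ⟨g, rfl⟩ := hv
            have := (h g).2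
            rw [← ht, hVt] at this
            exact this
          | zero => simp
          | add v v' _ _ h1 h2 => rw [mul_add]; exact dvd_add h1 h2
          | neg v _ h1 => rw [mul_neg]; exact (dvd_neg).2 h1
        have h3 := h2 D (by rw [hDV]; exact AddSubgroup.subset_closure rfl)
        have h4 : (k : ℤ) ∣ t := Int.dvd_of_mul_dvd_mul_right hD0 h3
        obtain ⟨j, hj⟩ := h4
        refine ⟨j, ?_⟩
        show (d ^ k) ^ j = r
        rw [← ht, hj, zpow_mul, zpow_natCast]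
      · rintro ⟨j, hj⟩ g
        change (d ^ k) ^ j = r at hj
        have e1 : r = d ^ ((k : ℤ) * j) := by rw [← hj, zpow_mul, zpow_natCast]
        refine ⟨hA₀.conj_mem _ ?_ g, ?_⟩
        · rw [hdmem, e1]; exact ⟨_, rfl⟩
        · rw [e1, hVt]
          obtain ⟨c, hc⟩ := hDdvd g
          rw [hc]
          exact ⟨j * c, by ring⟩
  · intro k hk
    rw [map_pow, hlpow _ (hAK hdA)]
    exact mul_ne_zero (by exact_mod_cast hk) hdl

/-- **Adapted pairs of subgroups of finite index.** -/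
theorem adapted (HP : VRC P) (HQ : VRC Q) (φ : R →* P) (ψ : R →* Q)
    (hφ : Function.Injective φ) (hψ : Function.Injective ψ) (r₀ : R)
    (hr₀ : (Subgroup.zpowers r₀).FiniteIndex) (N : Subgroup P) [hN : N.FiniteIndex]
    (M : Subgroup Q) [hM : M.FiniteIndex] :
    ∃ (A : Subgroup P) (B : Subgroup Q) (z : R) (μ : Q → ℤ), A.Normal ∧ A.FiniteIndex ∧ A ≤ N ∧
      B.Normal ∧ B.FiniteIndex ∧ B ≤ M ∧ (∀ r, φ r ∈ A ↔ r ∈ Subgroup.zpowers z) ∧
      (∀ r, ψ r ∈ B ↔ r ∈ Subgroup.zpowers z) ∧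
      (z = 1 ∨ (∀ a ∈ B, ∀ b ∈ B, μ (a * b) = μ a + μ b) ∧ μ (ψ z) ≠ 0) := by
  classical
  by_cases hR : ∀ n : ℤ, r₀ ^ n = 1 → n = 0
  · -- infinite case
    obtain ⟨d, A, l, hd1, hd2, hA, -⟩ := pside HP φ hφ r₀ hr₀ hR N
    obtain ⟨d', B, l', hd1', hd2', hB, hB'⟩ := pside HQ ψ hψ r₀ hr₀ hR M
    obtain ⟨i, hi0, -, hi⟩ := Subgroup.exists_pow_mem_of_index_ne_zero
      (H := Subgroup.zpowers d') hd2'.index_ne_zero d
    obtain ⟨j, hj⟩ := hi
    change d' ^ j = d ^ i at hj
    have hj0 : j ≠ 0 := by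
      rintro rfl
      rw [zpow_zero] at hj
      have := hd1 i (by rw [zpow_natCast, ← hj])
      omega
    have hj1 : j.natAbs ≠ 0 := Int.natAbs_ne_zero.2 hj0
    have hz : Subgroup.zpowers (d' ^ j.natAbs) = Subgroup.zpowers (d ^ i) := by
      rw [← hj]
      rcases Int.natAbs_eq j with h | h
      · rw [h, zpow_natCast, Int.natAbs_natCast]
      · rw [h, zpow_neg, zpow_natCast, Subgroup.zpowers_inv, Int.natAbs_neg,
          Int.natAbs_natCast]
    obtain ⟨a1, a2, a3, a4, a5⟩ := hA i hi0.ne'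
    obtain ⟨b1, b2, b3, b4, b5⟩ := hB j.natAbs hj1
    refine ⟨A i, B j.natAbs, d' ^ j.natAbs, l', a1, a2, a3, b1, b2, b3, ?_, b5, ?_⟩
    · intro r
      rw [a5, hz]
    · exact Or.inr ⟨b4, hB' _ hj1⟩
  · -- finite case
    have hfin : Finite R := by
      push Not at hR
      obtain ⟨n, hn, hn0⟩ := hR
      have h1 : IsOfFinOrder r₀ := isOfFinOrder_iff_zpow_eq_one.2 ⟨n, hn0, hn⟩
      have h2 : Finite (Subgroup.zpowers r₀) := (finite_zpowers.2 h1).to_subtype
      have h3 : Finite (R ⧸ Subgroup.zpowers r₀) := Subgroup.finite_quotient_of_finiteIndex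
      exact Finite.of_equiv _ (Subgroup.groupEquivQuotientProdSubgroup
        (s := Subgroup.zpowers r₀)).symm
    have h1 : ∀ e : {r : R // r ≠ 1}, ∃ N : Subgroup P, N.FiniteIndex ∧ φ e.1 ∉ N := fun e =>
      rf HP _ (fun h => e.2 (hφ (by rw [h, map_one])))
    have h2 : ∀ e : {r : R // r ≠ 1}, ∃ N : Subgroup Q, N.FiniteIndex ∧ ψ e.1 ∉ N := fun e =>
      rf HQ _ (fun h => e.2 (hψ (by rw [h, map_one])))
    choose N1 hN1 hN1' using h1
    choose N2 hN2 hN2' using h2
    obtain ⟨A, a1, a2, a3⟩ := exists_normal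
      (fun i : Option {r : R // r ≠ 1} => match i with
        | none => N
        | some e => N1 e)
      (fun i => match i with
        | none => hN
        | some e => hN1 e)
    obtain ⟨B, b1, b2, b3⟩ := exists_normal
      (fun i : Option {r : R // r ≠ 1} => match i with
        | none => M
        | some e => N2 e)
      (fun i => match i with
        | none => hM
        | some e => hN2 e)
    refine ⟨A, B, 1, fun _ => 0, a1, a2, a3 none, b1, b2, b3 none, ?_, ?_, Or.inl rfl⟩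
    · intro r
      rw [Subgroup.zpowers_one_eq_bot, Subgroup.mem_bot]
      constructor
      · intro h
        by_contra h0
        exact hN1' ⟨r, h0⟩ (a3 (some ⟨r, h0⟩) h)
      · rintro rfl
        rw [map_one]; exact A.one_mem
    · intro r
      rw [Subgroup.zpowers_one_eq_bot, Subgroup.mem_bot]
      constructor
      · intro h
        by_contra h0
        exact hN2' ⟨r, h0⟩ (b3 (some ⟨r, h0⟩) h)
      · rintro rfl
        rw [map_one]; exact B.one_mem

end Pool.Agent.Y968.VR
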